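import Pool.Agent.TH942.ES.StarExt
import Pool.Agent.V11288.EV.Frob

/-!
# The continuation of the L-functions of projective varieties to sectors at the central point

Let `X` be a smooth projective variety of dimension `d` over a number field `K` (for example `K = ℚ`) and
`0 ≤ i ≤ 2d`. For all primes `v` in a set `S` of primes (in the main case `S` contains almost all primes)
let `α_{v,1}, …, α_{v,N}` be the eigenvalues of Frobenius on `H^i(X)`, and let

`L(s) = ∏_{v ∈ S} ∏_j (1 - α_{v,j} q_v^{-s})⁻¹`, `Re s > i/2 + 1`,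

the `L`-function of `H^i(X)` (up to the finitely many missing Euler factors, which are meromorphic). For
the traces `t_k(v) = ∑_j α_{v,j}^k`, the coefficients of `log L`, and the weights
`w_ρ(u) = (1/2πi) ∫ exp(z - u z^{1/ρ}) dz/z`, `ρ > 1`, consider the smoothed Euler products at the centre
`c = (i + 1)/2`,

`S_ρ(Y) = ∑_{v, k ≥ 1} w_ρ(k log q_v / log Y) t_k(v) / (k q_v^{k c})`, `q_v^k ≤ exp ((log Y)^{ρ'})`

(`ρ' > ρ` is irrelevant, since `w_ρ` decays so fast). It is shown that for all real `ρ₀ ≥ 1`, `A > 0` and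
natural `r` the following are EQUIVALENT:

* for all `ρ' > ρ > ρ₀`: `S_ρ(Y) + r log log Y → log A - r γ/ρ` for `Y → ∞`;
* `L(s)` has a holomorphic continuation WITHOUT ZEROS to the union of the half plane `Re s > i/2 + 1` and
  the sector `|arg (s - c)| < π/(2ρ₀)`, and `L(s) ∼ A (s - c)^r` for `s → c` in the smaller sectors.

For `ρ₀ = 1` the sector is the half plane `Re s > c` to the right of the central line. Nothing is assumed
about a continuation: the convergence of the smoothed Euler products at the central point gives the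
holomorphic continuation to the right of the central line, the absence of zeros there and the order and
the leading coefficient at the central point (in angles), and conversely. The Tauberian theorem is
proved in the library (`Pool.Agent.TH942.ES`, `Pool.Agent.TH942.SL`).
-/

set_option autoImplicit false

namespace Pool.Agent.Results.MP_039d94_nt.CentralSectors

open Filter Topology Set NumberField IsDedekindDomain

variable {K : Type} [Field K] [NumberField K] {n N : ℕ}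

/-- The norm `q_v`. -/
noncomputable def nrm (v : HeightOneSpectrum (𝓞 K)) : ℕ := Ideal.absNorm v.asIdeal

/-- The set `X` of homogeneous polynomials over `𝓞_K` in `n` variables gives a projective variety over
`K`.  For a field `κ` with `q` elements and a homomorphism `𝓞_K → κ` this is `(q - 1)` times the number
of the points of `X` with coordinates in `κ`: the number of the nonzero solutions of the equations. -/
noncomputable def cone (X : Set (MvPolynomial (Fin n) (𝓞 K))) {κ : Type} [Field κ]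
    (φ : 𝓞 K →+* κ) : ℕ :=
  Nat.card {u : Fin n → κ // u ≠ 0 ∧ ∀ f ∈ X, MvPolynomial.eval₂ φ u f = 0}

/-- `α_1, …, α_N` are the eigenvalues of the geometric Frobenius at the prime `v` of `K` on `H^i(X)`,
for a variety `X` of dimension `d`: there are finite multisets `β_k` of complex numbers of absolute
value `q_v^{k/2}`, `k = 0, …, 2d`, with `β_i = {α_1, …, α_N}`, such that for every finite extension
`κ` of the residue field of `v`, of degree `e`, the number of the points of `X` with coordinates in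
`κ` is `∑ (-1)^k ∑_{z ∈ β_k} z^e`.  By the theorem of Deligne such `β_k` exist at almost all primes
if `X` is smooth, with `N` the `i`-th Betti number of `X`; for `k ≤ 2d` they are unique. -/
def IsFrobenius (X : Set (MvPolynomial (Fin n) (𝓞 K))) (d i : ℕ)
    (v : HeightOneSpectrum (𝓞 K)) (α : Fin N → ℂ) : Prop :=
  ∃ β : ℕ → Multiset ℂ, β i = Finset.univ.val.map α ∧
    (∀ k, ∀ z ∈ β k, ‖z‖ = (nrm v : ℝ) ^ ((k : ℝ) / 2)) ∧
    ∀ (κ : Type) [Field κ] [Finite κ] (φ : 𝓞 K →+* κ) (e : ℕ), RingHom.ker φ = v.asIdeal →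
      Nat.card κ = nrm v ^ e →
      (cone X φ : ℂ) = ((nrm v : ℂ) ^ e - 1) *
          ∑ k ∈ Finset.range (2 * d + 1), (-1 : ℂ) ^ k * ((β k).map (fun z => z ^ e)).sum

variable {S : Set (HeightOneSpectrum (𝓞 K))}

/-- The Euler factor `∏_j (1 - α_{v,j} q_v^{-s})⁻¹`. -/
noncomputable def factor (α : S → Fin N → ℂ) (v : S) (s : ℂ) : ℂ :=
  ∏ j, (1 - α v j * (nrm v.1 : ℂ) ^ (-s))⁻¹

/-- The central point `(i + 1)/2`. -/
noncomputable def centre (i : ℕ) : ℝ := ((i : ℝ) + 1) / 2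

/-- The open sector `|arg (s - c)| < π/(2ρ)` at the central point `c = (i + 1)/2`. -/
def Sector (i : ℕ) (ρ : ℝ) : Set ℂ :=
  {s | s ≠ centre i ∧ |(s - centre i).arg| < Real.pi / (2 * ρ)}

/-- `L` has a holomorphic continuation `G` without zeros to the union of `U` and the half plane
`Re s > i/2 + 1`, and `G(s)/(s - c)^r → A` for `s → c` in the sectors `|arg (s - c)| < π/(2ρ)`, `ρ > ρ₀`,
for the central point `c = (i + 1)/2`. -/
def Continues (i : ℕ) (α : S → Fin N → ℂ) (U : Set ℂ) (ρ₀ : ℝ) (r : ℕ) (A : ℝ) : Prop :=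
  ∃ G : ℂ → ℂ, (∀ s : ℂ, s ∈ U ∨ (i : ℝ) / 2 + 1 < s.re → DifferentiableAt ℂ G s ∧ G s ≠ 0) ∧
    (∀ s : ℂ, (i : ℝ) / 2 + 1 < s.re → HasProd (fun v : S => factor α v s) (G s)) ∧
    ∀ ρ : ℝ, ρ₀ < ρ → Tendsto (fun s : ℂ => G s / (s - centre i) ^ r)
      (𝓝[Sector i ρ] (centre i : ℂ)) (𝓝 (A : ℂ))

/-- The weight `w_ρ(u) = (1/2πi) ∫_{Re z = 1} exp(z - u z^{1/ρ}) dz/z`. -/
noncomputable def weight (ρ u : ℝ) : ℝ :=
  (2 * Real.pi)⁻¹ * ∫ t : ℝ, (Complex.exp ((1 + t * Complex.I) -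
    u * (1 + t * Complex.I) ^ ((ρ⁻¹ : ℝ) : ℂ)) / (1 + t * Complex.I)).re

/-- The sum of `w_ρ(k log q_v / log Y) t_k(v) / (k q_v^{k (i+1)/2})` over the primes `v ∈ S` and the
`k ≥ 1` (here `k = p.2 + 1`) with `q_v^k ≤ exp ((log Y)^{ρ'})`; `t_k(v) = ∑_j α_{v,j}^k` is the trace of the
`k`-th power of Frobenius, a real number. -/
noncomputable def mean (i : ℕ) (α : S → Fin N → ℂ) (ρ ρ' Y : ℝ) : ℝ :=
  ∑ᶠ (p : S × ℕ) (_ : (nrm p.1.1 : ℝ) ^ (p.2 + 1) ≤ Real.exp (Real.log Y ^ ρ')),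
    weight ρ (((p.2 : ℝ) + 1) * Real.log (nrm p.1.1) / Real.log Y) *
      ((∑ j, α p.1 j ^ (p.2 + 1)).re /
        (((p.2 : ℝ) + 1) * ((nrm p.1.1 : ℝ) ^ centre i) ^ (p.2 + 1)))

/-- `S_ρ(Y) + r log log Y → log A - r γ/ρ` for `Y → ∞`, for all `ρ' > ρ > ρ₀`. -/
def Limits (i : ℕ) (α : S → Fin N → ℂ) (ρ₀ : ℝ) (r : ℕ) (A : ℝ) : Prop :=
  ∀ ρ ρ' : ℝ, ρ₀ < ρ → ρ < ρ' →
    Tendsto (fun Y : ℝ => mean i α ρ ρ' Y + r * Real.log (Real.log Y)) atTop
      (𝓝 (Real.log A - r * Real.eulerMascheroniConstant / ρ))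

open Pool.Agent.TH942.ES
open Pool.Agent.V11288

/-- the normalised eigenvalues -/
noncomputable def nal (i : ℕ) (α : S → Fin N → ℂ) (v : S) (j : Fin N) : ℂ :=
  α v j * (((nrm v.1 : ℝ) ^ (-((i : ℝ) / 2)) : ℝ) : ℂ)

theorem frob_iff {X : Set (MvPolynomial (Fin n) (𝓞 K))} {d i : ℕ} {v : HeightOneSpectrum (𝓞 K)}
    {α : Fin N → ℂ} : IsFrobenius X d i v α ↔ EV.IsFrobenius X d i v α := Iff.rfl

theorem nrm_two (v : HeightOneSpectrum (𝓞 K)) : (2 : ℝ) ≤ nrm v := by
  exact_mod_cast Pool.Agent.H921R2.TatePole.two_le_nm v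

theorem zv_eq (i : ℕ) (α : S → Fin N → ℂ) (v : S) (j : Fin N) :
    zv (fun v : S => Pool.Agent.H921R2.TatePole.nm v.1) (nal i α) v j =
      α v j * ((((nrm v.1 : ℝ) ^ centre i)⁻¹ : ℝ) : ℂ) := by
  have h2 := nrm_two v.1
  have h0 : (0 : ℝ) < nrm v.1 := by linarith
  change α v j * (((nrm v.1 : ℝ) ^ (-((i : ℝ) / 2)) : ℝ) : ℂ) / ((√(nrm v.1 : ℝ) : ℝ) : ℂ) = _
  rw [mul_div_assoc, ← Complex.ofReal_div]
  congr 2
  rw [Real.sqrt_eq_rpow, ← Real.rpow_sub h0, ← Real.rpow_neg h0.le]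
  congr 1
  unfold centre
  ring

theorem norm_lt {X : Set (MvPolynomial (Fin n) (𝓞 K))} {d i : ℕ} {v : S} {α : S → Fin N → ℂ}
    (h : IsFrobenius X d i v.1 (α v)) (j : Fin N) :
    ‖α v j * ((((nrm v.1 : ℝ) ^ centre i)⁻¹ : ℝ) : ℂ)‖ < 1 := by
  have h2 := nrm_two v.1
  have h0 : (0 : ℝ) < nrm v.1 := by linarith
  have h1 : ‖α v j‖ = (nrm v.1 : ℝ) ^ ((i : ℝ) / 2) := EV.norm' (frob_iff.1 h) j
  rw [norm_mul, h1, Complex.norm_real, Real.norm_eq_abs, abs_of_pos (by positivity),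
    ← Real.rpow_neg h0.le, ← Real.rpow_add h0]
  refine Real.rpow_lt_one_of_one_lt_of_neg (by linarith) ?_
  unfold centre
  linarith

theorem nal_norm {X : Set (MvPolynomial (Fin n) (𝓞 K))} {d i : ℕ} {v : S} {α : S → Fin N → ℂ}
    (h : IsFrobenius X d i v.1 (α v)) (j : Fin N) : ‖nal i α v j‖ ≤ 1 := by
  have h2 := nrm_two v.1
  have h0 : (0 : ℝ) < nrm v.1 := by linarith
  have h1 : ‖α v j‖ = (nrm v.1 : ℝ) ^ ((i : ℝ) / 2) := EV.norm' (frob_iff.1 h) j
  unfold nal
  rw [norm_mul, h1, Complex.norm_real, Real.norm_eq_abs, abs_of_pos (by positivity),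
    ← Real.rpow_add h0, add_neg_cancel, Real.rpow_zero]

theorem pow_real {X : Set (MvPolynomial (Fin n) (𝓞 K))} {d i : ℕ} (hi : i ≤ 2 * d) {v : S}
    {α : S → Fin N → ℂ} (h : IsFrobenius X d i v.1 (α v)) (c : ℝ) (k : ℕ) :
    (∑ j, (α v j * (c : ℂ)) ^ k).im = 0 := by
  refine EV.real_sum hi (frob_iff.1 h) (fun z => (z * (c : ℂ)) ^ k) fun j => ?_
  rw [map_pow, map_mul, Complex.conj_ofReal]

theorem log_real {X : Set (MvPolynomial (Fin n) (𝓞 K))} {d i : ℕ} (hi : i ≤ 2 * d) {v : S}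
    {α : S → Fin N → ℂ} (h : IsFrobenius X d i v.1 (α v)) :
    (∑ j, Complex.log (1 - α v j * ((((nrm v.1 : ℝ) ^ centre i)⁻¹ : ℝ) : ℂ))).im = 0 := by
  refine EV.real_sum hi (frob_iff.1 h)
    (fun z => Complex.log (1 - z * ((((nrm v.1 : ℝ) ^ centre i)⁻¹ : ℝ) : ℂ))) fun j => ?_
  have h1 := norm_lt h j
  rw [← Complex.log_conj]
  · rw [map_sub, map_one, map_mul, Complex.conj_ofReal]
  · intro h2
    have h3 := (Complex.arg_eq_pi_iff.1 h2).1
    rw [Complex.sub_re, Complex.one_re] at h3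
    have h4 := (Complex.re_le_norm (α v j * ((((nrm v.1 : ℝ) ^ centre i)⁻¹ : ℝ) : ℂ))).trans_lt h1
    linarith

theorem sys {X : Set (MvPolynomial (Fin n) (𝓞 K))} {d i : ℕ} (hi : i ≤ 2 * d)
    {α : S → Fin N → ℂ} (h : ∀ v, IsFrobenius X d i v.1 (α v)) :
    Sys (fun v : S => Pool.Agent.H921R2.TatePole.nm v.1) (nal i α) :=
  nf_sys (fun v => v ∈ S) (nal i α) (fun v j => nal_norm (h v) j) fun v => by
    have h1 : ∀ j, nal i α v j / ((√(((Pool.Agent.H921R2.TatePole.nm v.1 : ℕ) : ℝ)) : ℝ) : ℂ) =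
        α v j * ((((nrm v.1 : ℝ) ^ centre i)⁻¹ : ℝ) : ℂ) := fun j => zv_eq i α v j
    simp only [h1]
    exact log_real hi (h v)

theorem factor_eq (i : ℕ) (α : S → Fin N → ℂ) (s : ℂ) :
    (fun v : S => factor α v s) = fun v : S =>
      ∏ j, (1 - zv (fun v : S => Pool.Agent.H921R2.TatePole.nm v.1) (nal i α) v j *
        xv (fun v : S => Pool.Agent.H921R2.TatePole.nm v.1) v (s - centre i))⁻¹ := by
  funext v
  have h2 := nrm_two v.1
  have h0 : (0 : ℝ) < nrm v.1 := by linarith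
  have hc : (nrm v.1 : ℂ) ≠ 0 := by exact_mod_cast h0.ne'
  unfold factor
  refine Finset.prod_congr rfl fun j _ => ?_
  rw [zv_eq]
  congr 2
  rw [mul_assoc]
  congr 1
  have e1 : xv (fun v : S => Pool.Agent.H921R2.TatePole.nm v.1) v (s - centre i) =
      (nrm v.1 : ℂ) ^ (-(s - centre i)) := by
    rw [Complex.cpow_def_of_ne_zero hc]
    unfold xv
    congr 1
    change -((s - centre i) * ((Real.log (nrm v.1 : ℝ) : ℝ) : ℂ)) = _
    rw [Complex.ofReal_log h0.le, Complex.ofReal_natCast]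
    ring
  rw [e1, ← Real.rpow_neg h0.le, Complex.ofReal_cpow h0.le, Complex.ofReal_natCast,
    ← Complex.cpow_add _ _ hc]
  congr 1
  push_cast
  ring

theorem hasProd_iff {X : Set (MvPolynomial (Fin n) (𝓞 K))} {d i : ℕ} (hi : i ≤ 2 * d)
    {α : S → Fin N → ℂ} (h : ∀ v, IsFrobenius X d i v.1 (α v)) {s : ℂ}
    (hs : (i : ℝ) / 2 + 1 < s.re) (y : ℂ) :
    HasProd (fun v : S => factor α v s) y ↔
      y = LE (fun v : S => Pool.Agent.H921R2.TatePole.nm v.1) (nal i α) (s - centre i) := by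
  have h1 : 1 / 2 < (s - centre i).re := by
    rw [Complex.sub_re, Complex.ofReal_re]
    unfold centre
    linarith
  have h2 := (sys hi h).hasProd h1
  rw [factor_eq i α s]
  constructor
  · intro h
    exact h.tprod_eq.symm
  · rintro rfl
    unfold Pool.Agent.TH942.ES.LE
    rw [h2.tprod_eq]
    exact h2

theorem mean_eq (i : ℕ) (α : S → Fin N → ℂ) (ρ ρ' Y : ℝ) : mean i α ρ ρ' Y =
    StE (fun v : S => Pool.Agent.H921R2.TatePole.nm v.1) (nal i α) ρ ρ' Y := by
  unfold mean StE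
  refine finsum_congr fun p => finsum_congr fun _ => ?_
  have h2 := nrm_two p.1.1
  have h0 : (0 : ℝ) < nrm p.1.1 := by linarith
  have h3 : (0 : ℝ) < (nrm p.1.1 : ℝ) ^ centre i := by positivity
  have e1 : cP (fun v : S => Pool.Agent.H921R2.TatePole.nm v.1) (nal i α) p =
      (∑ j, α p.1 j ^ (p.2 + 1)).re /
        (((p.2 : ℝ) + 1) * ((nrm p.1.1 : ℝ) ^ centre i) ^ (p.2 + 1)) := by
    unfold cP
    simp only [zv_eq, mul_pow]
    rw [← Finset.sum_mul, ← Complex.ofReal_pow, Complex.re_mul_ofReal, inv_pow]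
    field_simp
  rw [e1]
  rfl

theorem sector_shift (i : ℕ) (ρ : ℝ) (s : ℂ) :
    s ∈ Sector i ρ ↔ s - centre i ∈ Pool.Agent.TH942.SL.Sect ρ := by
  unfold Sector Pool.Agent.TH942.SL.Sect
  simp only [Set.mem_ofPred_eq, sub_ne_zero]

theorem tendsto_shift {i : ℕ} {ρ : ℝ} {g : ℂ → ℂ} {l : Filter ℂ} :
    Tendsto (fun s : ℂ => g (s - centre i)) (𝓝[Sector i ρ] (centre i : ℂ)) l ↔
      Tendsto g (𝓝[Pool.Agent.TH942.SL.Sect ρ] 0) l := by
  have h1 : Tendsto (fun s : ℂ => s - centre i) (𝓝[Sector i ρ] (centre i : ℂ))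
      (𝓝[Pool.Agent.TH942.SL.Sect ρ] 0) := by
    refine tendsto_nhdsWithin_of_tendsto_nhds_of_eventually_within _ ?_ ?_
    · have : Tendsto (fun s : ℂ => s - centre i) (𝓝 (centre i : ℂ)) (𝓝 ((centre i : ℂ) - centre i)) :=
        (continuous_id.sub continuous_const).tendsto _
      rw [sub_self] at this
      exact this.mono_left nhdsWithin_le_nhds
    · filter_upwards [self_mem_nhdsWithin] with s hs
      exact (sector_shift i ρ s).1 hs
  have h2 : Tendsto (fun s : ℂ => s + centre i) (𝓝[Pool.Agent.TH942.SL.Sect ρ] 0)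
      (𝓝[Sector i ρ] (centre i : ℂ)) := by
    refine tendsto_nhdsWithin_of_tendsto_nhds_of_eventually_within _ ?_ ?_
    · have : Tendsto (fun s : ℂ => s + centre i) (𝓝 (0 : ℂ)) (𝓝 ((0 : ℂ) + centre i)) :=
        (continuous_id.add continuous_const).tendsto _
      rw [zero_add] at this
      exact this.mono_left nhdsWithin_le_nhds
    · filter_upwards [self_mem_nhdsWithin] with s hs
      rw [sector_shift, add_sub_cancel_right]
      exact hs
  constructor
  · intro h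
    refine (h.comp h2).congr fun s => ?_
    simp only [Function.comp_apply, add_sub_cancel_right]
  · intro h
    exact h.comp h1

/-- The main step. -/
theorem main {X : Set (MvPolynomial (Fin n) (𝓞 K))} {d i : ℕ} (hi : i ≤ 2 * d)
    {α : S → Fin N → ℂ} (h : ∀ v, IsFrobenius X d i v.1 (α v)) {ρ₀ : ℝ} (hρ₀ : 1 ≤ ρ₀) (r : ℕ)
    {A : ℝ} (hA : 0 < A) :
    Limits i α ρ₀ r A ↔ Continues i α (Sector i ρ₀) ρ₀ r A := by
  have E := sys hi h
  have hreal : ∀ (v : S) (k : ℕ),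
      (∑ j, zv (fun v : S => Pool.Agent.H921R2.TatePole.nm v.1) (nal i α) v j ^ k).im = 0 := by
    intro v k
    simp only [zv_eq]
    exact pow_real hi (h v) _ k
  have h1 := E.star_equiv hreal hρ₀ r hA
  have h2 : Limits i α ρ₀ r A ↔ ∀ ρ ρ' : ℝ, ρ₀ < ρ → ρ < ρ' →
      Tendsto (fun Y : ℝ => StE (fun v : S => Pool.Agent.H921R2.TatePole.nm v.1) (nal i α) ρ ρ' Y +
        r * Real.log (Real.log Y)) atTop
        (𝓝 (Real.log A - r * Real.eulerMascheroniConstant / ρ)) := by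
    unfold Limits
    simp only [mean_eq]
  rw [h2, h1]
  have h3 : ∀ s : ℂ, (i : ℝ) / 2 + 1 < s.re ↔ 1 / 2 < (s - centre i).re := by
    intro s
    rw [Complex.sub_re, Complex.ofReal_re]
    unfold centre
    constructor <;> intro <;> linarith
  constructor
  · rintro ⟨G, g1, g2, g3⟩
    refine ⟨fun s => G (s - centre i), fun s hs => ?_, fun s hs => ?_, fun ρ hρ => ?_⟩
    · have h4 := g1 (s - centre i) (hs.imp (sector_shift i ρ₀ s).1 (h3 s).1)
      exact ⟨h4.1.comp s (by fun_prop), h4.2⟩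
    · rw [hasProd_iff hi h hs]
      exact g2 _ ((h3 s).1 hs)
    · exact (tendsto_shift (g := fun s => G s / s ^ r)).2 (g3 ρ hρ)
  · rintro ⟨G, g1, g2, g3⟩
    refine ⟨fun s => G (s + centre i), fun s hs => ?_, fun s hs => ?_, fun ρ hρ => ?_⟩
    · have h4 := g1 (s + centre i) (hs.imp (fun h5 => by
        rwa [sector_shift, add_sub_cancel_right]) (fun h5 => by
        rwa [h3, add_sub_cancel_right]))
      exact ⟨h4.1.comp s (by fun_prop), h4.2⟩
    · have h4 : (i : ℝ) / 2 + 1 < (s + centre i).re := by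
        rwa [h3, add_sub_cancel_right]
      have h5 := (hasProd_iff hi h h4 _).1 (g2 _ h4)
      rwa [add_sub_cancel_right] at h5
    · refine (tendsto_shift (i := i) (g := fun s => G (s + centre i) / s ^ r)).1 ?_
      refine (g3 ρ hρ).congr fun s => ?_
      rw [sub_add_cancel]

/-- **Theorem.** Let `X` be a projective variety over a number field `K`, given by a set of homogeneous
polynomials over `𝓞_K`, `i ≤ 2d`, `S` a set of primes of `K` and `α_{v,j}` the eigenvalues of Frobenius on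
`H^i(X)` at all `v ∈ S`. Let `r` be a natural number and `A > 0`.

(1) For all `ρ₀ ≥ 1` the following are equivalent: (i) for all `ρ' > ρ > ρ₀`,
`S_ρ(Y) + r log log Y → log A - r γ/ρ`; (ii) `L(s)` has a holomorphic continuation without zeros to the
union of the half plane `Re s > i/2 + 1` and of the sector `|arg (s - c)| < π/(2ρ₀)`, `c = (i + 1)/2`, and
`L(s)/(s - c)^r → A` for `s → c` in the sectors `|arg (s - c)| < π/(2ρ)`, `ρ > ρ₀`.

(2) `L(s)` has a holomorphic continuation without zeros to the half plane `Re s > (i + 1)/2` with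
`L(s)/(s - c)^r → A` for `s → c` in all sectors `|arg (s - c)| < π/(2ρ)`, `ρ > 1`, if and only if
`S_ρ(Y) + r log log Y → log A - r γ/ρ` for all `ρ' > ρ > 1`. -/
theorem result (X : Set (MvPolynomial (Fin n) (𝓞 K))) (d i : ℕ) (hi : i ≤ 2 * d)
    (α : S → Fin N → ℂ) (h : ∀ v, IsFrobenius X d i v.1 (α v)) (r : ℕ) (A : ℝ) (hA : 0 < A) :
    (∀ ρ₀ : ℝ, 1 ≤ ρ₀ → (Limits i α ρ₀ r A ↔ Continues i α (Sector i ρ₀) ρ₀ r A)) ∧
    (Limits i α 1 r A ↔ Continues i α {s : ℂ | centre i < s.re} 1 r A) := by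
  refine ⟨fun ρ₀ hρ₀ => main hi h hρ₀ r hA, ?_⟩
  have h1 : Sector i 1 = {s : ℂ | centre i < s.re} := by
    ext s
    rw [sector_shift, sect_one]
    simp only [Set.mem_ofPred_eq, Complex.sub_re, Complex.ofReal_re, sub_pos]
  rw [← h1]
  exact main hi h le_rfl r hA

end Pool.Agent.Results.MP_039d94_nt.CentralSectors
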