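import Pool.Agent.V11190.MC.Intr
import Pool.Agent.V11288.HS.Main
import Pool.Agent.V11288.EV.Frob

/-!
# The meromorphic continuation of `L(H^i(X), s)` and the mean square of the logarithms of Euler products

Let `X` be a projective variety over a number field `K` (for example `K = ℚ`), `i ≤ 2 dim X`, and let
`α_{v,1}, …, α_{v,N}` be the eigenvalues of Frobenius on `H^i(X)` for the primes `v` of a set `S` of primes (in
the main case all primes of good reduction; the other Euler factors are meromorphic in the whole plane). Let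

`L(s) = ∏_{v ∈ S} ∏_j (1 - α_{v,j} q_v^{-s})⁻¹`, `Re s > i/2 + 1`.

For `i ≥ 1` no continuation is known in general, and nothing is assumed about it here. Let
`(i + 1)/2 ≤ σ < i/2 + 1` and let

`log P_σ(Y) = ∑_{q_v^k ≤ Y} t_k(v) / (k q_v^{kσ})`, `t_k(v) = ∑_j α_{v,j}^k`,

be the sum over the finite fields with at most `Y` elements. Let `D = ∑ m(w) [w]` be any finite divisor in the
strip `σ < Re w ≤ i/2 + 1` which is symmetric about the real axis, with positive and negative multiplicities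
`m(w)` (in the problem `D = -n [i/2 + 1]`, by the conjecture of Tate `n` is the rank of the group of the
algebraic cycles of dimension `i/2` over `K`), and `Ein z = ∑_{n ≥ 1} z^n/(n n!)`, the integral of `(e^t - 1)/t` from
`0` to `z`. It is shown for all real `r`, all `A > 0` and all `C ≥ 0` that

`∫_1^∞ (log P_σ(Y) + ∑_w m(w) Ein((w - σ) log Y) + r (log log Y + γ) - log A)² dY/Y ≤ C`

IF AND ONLY IF `L` has a MEROMORPHIC continuation `F` to the half plane `Re s > σ`, with the divisor `D` there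
(`F` has a zero of order `m(w)`, or a pole of order `-m(w)`, at the points `w` of `D` and no other zeros and
poles), such that for the logarithm `ℓ` of `F(s) ∏_w ((s - σ)/(s - w))^{m(w)}`

`∫_{Re s = σ + x} |ℓ(s) - r log (s - σ) - log A|² / |s - σ|² |ds| ≤ 2π C` for all `x > 0`.

In this case `|ℓ(s) - r log (s - σ) - log A|² ≤ C |s - σ|² / (2 Re (s - σ))` for all `s` with `Re s > σ`.

So the existence of a meromorphic continuation of `L(H^i(X), s)` to `Re s > σ` with finitely many zeros and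
poles (and with this growth; for `σ = (i + 1)/2` up to the central line) is a property of the numbers of points
of `X` over the finite fields, and the zeros and poles are the exponents of an asymptotic expansion of the sums
`log P_σ(Y)` in the mean square. The eigenvalues of Frobenius enter only through `|α_{v,j}| ≤ q_v^{i/2}` and
through the traces being real; the theorem is stated for all such systems, as they come from all motives over
`K`.

Proof. The function `Ein(w u)` has the Laplace transform `-log(1 - w/s)/s` and `γ + log u` has the Laplace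
transform `-log s/s`; so the logarithm of `F(s) ∏ ((s - σ)/(s - w))^{m(w)}` divided by `s - σ`, minus the
singular term, is the Laplace transform of the deviation, and the theorem of Paley and Wiener applies. It
is extended from the half plane of absolute convergence by the identity theorem
(`Pool/Agent/V11190/MC`; the case `D = 0`, `σ = (i + 1)/2` is due to helper288, `Pool/Agent/V11288/HS`).
-/

set_option autoImplicit false

namespace Pool.Agent.Results.MP_039d94_nt.MeromorphicCriterion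

open Filter Topology Set NumberField IsDedekindDomain MeasureTheory

variable {K : Type} [Field K] [NumberField K] {n N : ℕ}

/-- The norm `q_v`. -/
noncomputable def nrm (v : HeightOneSpectrum (𝓞 K)) : ℕ := Ideal.absNorm v.asIdeal

/-- The set `X` of homogeneous polynomials over `𝓞_K` in `n` variables gives a projective variety over
`K`.  For a field `κ` with `q` elements and a homomorphism `𝓞_K → κ` this is `(q - 1)` times the number
of the points of `X` with coordinates in `κ`: the number of the nonzero solutions of the equations. -/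
noncomputable def cone (X : Set (MvPolynomial (Fin n) (𝓞 K))) {κ : Type} [Field κ]
    (φ : 𝓞 K →+* κ) : ℕ :=
  Nat.card {u : Fin n → κ // u ≠ 0 ∧ ∀ f ∈ X, MvPolynomial.eval₂ φ u f = 0}

/-- `α_1, …, α_N` are the eigenvalues of the geometric Frobenius at the prime `v` of `K` on `H^i(X)`,
for a variety `X` of dimension `d`: there are finite multisets `β_k` of complex numbers of absolute
value `q_v^{k/2}`, `k = 0, …, 2d`, with `β_i = {α_1, …, α_N}`, such that for every finite extension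
`κ` of the residue field of `v`, of degree `e`, the number of the points of `X` with coordinates in
`κ` is `∑ (-1)^k ∑_{z ∈ β_k} z^e`.  By the theorem of Deligne such `β_k` exist at almost all primes
if `X` is smooth, with `N` the `i`-th Betti number of `X`; for `k ≤ 2d` they are unique. -/
def IsFrobenius (X : Set (MvPolynomial (Fin n) (𝓞 K))) (d i : ℕ)
    (v : HeightOneSpectrum (𝓞 K)) (α : Fin N → ℂ) : Prop :=
  ∃ β : ℕ → Multiset ℂ, β i = Finset.univ.val.map α ∧
    (∀ k, ∀ z ∈ β k, ‖z‖ = (nrm v : ℝ) ^ ((k : ℝ) / 2)) ∧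
    ∀ (κ : Type) [Field κ] [Finite κ] (φ : 𝓞 K →+* κ) (e : ℕ), RingHom.ker φ = v.asIdeal →
      Nat.card κ = nrm v ^ e →
      (cone X φ : ℂ) = ((nrm v : ℂ) ^ e - 1) *
          ∑ k ∈ Finset.range (2 * d + 1), (-1 : ℂ) ^ k * ((β k).map (fun z => z ^ e)).sum

variable {S : Set (HeightOneSpectrum (𝓞 K))}

/-- The Euler factor `∏_j (1 - α_{v,j} q_v^{-s})⁻¹`. -/
noncomputable def factor (α : S → Fin N → ℂ) (v : S) (s : ℂ) : ℂ :=
  ∏ j, (1 - α v j * (nrm v.1 : ℂ) ^ (-s))⁻¹

/-- `α` is a pure system of weight `i` with real traces: `|α_{v,j}| ≤ q_v^{i/2}` for all `v ∈ S` and `j`, and the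
traces `t_k(v) = ∑_j α_{v,j}^k` are real. -/
def Pure (i : ℕ) (α : S → Fin N → ℂ) : Prop :=
  (∀ v j, ‖α v j‖ ≤ (nrm v.1 : ℝ) ^ ((i : ℝ) / 2)) ∧ ∀ v k, (∑ j, α v j ^ k).im = 0

/-- `log P_σ(Y)`: the sum of `t_k(v) / (k q_v^{k σ})` over all primes `v ∈ S` and `k ≥ 1` (here `k = p.2 + 1`)
with `q_v^k ≤ Y`; `t_k(v) = ∑_j α_{v,j}^k` is a real number. -/
noncomputable def logP (α : S → Fin N → ℂ) (σ Y : ℝ) : ℝ :=
  ∑ᶠ (p : S × ℕ) (_ : (nrm p.1.1 : ℝ) ^ (p.2 + 1) ≤ Y),
    (∑ j, α p.1 j ^ (p.2 + 1)).re / (((p.2 : ℝ) + 1) * ((nrm p.1.1 : ℝ) ^ σ) ^ (p.2 + 1))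

/-- `Ein z = ∑_{n ≥ 1} zⁿ / (n n!)`, the integral of `(e^t - 1)/t` from `0` to `z`. -/
noncomputable def Ein (z : ℂ) : ℂ :=
  ∑' n : ℕ, z ^ (n + 1) / (((n : ℂ) + 1) * ((n + 1).factorial : ℂ))

/-- The finite divisor `∑_{w ∈ D} m(w) [w]` lies in the strip `σ < Re w ≤ i/2 + 1` and is symmetric about the
real axis. -/
structure IsDivisor (i : ℕ) (σ : ℝ) (D : Finset ℂ) (m : ℂ → ℤ) : Prop where
  strip : ∀ w ∈ D, σ < w.re ∧ w.re ≤ (i : ℝ) / 2 + 1
  symm : ∀ w ∈ D, starRingEnd ℂ w ∈ D ∧ m (starRingEnd ℂ w) = m w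

/-- `∫_1^∞ (log P_σ(Y) + ∑_w m(w) Ein((w - σ) log Y) + r (γ + log log Y) - log A)² dY/Y ∈ [0, ∞]`. (The sum over
`D` is real.) -/
noncomputable def meanSquare (α : S → Fin N → ℂ) (σ : ℝ) (D : Finset ℂ) (m : ℂ → ℤ) (r A : ℝ) : ENNReal :=
  ∫⁻ Y in Ioi (1 : ℝ), ENNReal.ofReal
    ((logP α σ Y + ∑ w ∈ D, (m w : ℝ) * (Ein ((w - σ) * (Real.log Y : ℝ))).re +
      r * (Real.eulerMascheroniConstant + Real.log (Real.log Y)) - Real.log A) ^ 2 / Y)

/-- `F` is a meromorphic continuation of `L` to the half plane `Re s > σ` with the divisor `∑ m(w) [w]`: the order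
of `F` at `s` (positive for zeros, negative for poles) is `m(s)` for `s ∈ D` and `0` for `s ∉ D`, and `F(s)` is
the value of the Euler product for `Re s > i/2 + 1`. -/
structure IsContinuation (i : ℕ) (α : S → Fin N → ℂ) (σ : ℝ) (D : Finset ℂ) (m : ℂ → ℤ) (F : ℂ → ℂ) :
    Prop where
  mero : ∀ s : ℂ, σ < s.re → MeromorphicAt F s ∧
    meromorphicOrderAt F s = ((if s ∈ D then m s else 0 : ℤ) : WithTop ℤ)
  prod : ∀ s : ℂ, (i : ℝ) / 2 + 1 < s.re → HasProd (fun v : S => factor α v s) (F s)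

/-- `ℓ` is holomorphic for `Re s > σ` and `F = exp ℓ ∏_{w ∈ D} ((s - w)/(s - σ))^{m(w)}` (as meromorphic
functions, that is in a punctured neighbourhood of every point). -/
def IsLog (σ : ℝ) (D : Finset ℂ) (m : ℂ → ℤ) (F ℓ : ℂ → ℂ) : Prop :=
  (∀ s : ℂ, σ < s.re → DifferentiableAt ℂ ℓ s) ∧
  ∀ s : ℂ, σ < s.re → ∀ᶠ z in 𝓝[≠] s,
    F z = Complex.exp (ℓ z) * ∏ w ∈ D, ((z - w) / (z - σ)) ^ m w

/-- `∫ |ℓ(s) - r log (s - σ) - log A|² / |s - σ|² dt` over the line `s = σ + x + t √-1`. -/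
noncomputable def vertical (σ : ℝ) (ℓ : ℂ → ℂ) (r A x : ℝ) : ENNReal :=
  ∫⁻ t : ℝ, ENNReal.ofReal (‖(ℓ (σ + x + t * Complex.I) - r * Complex.log (x + t * Complex.I) -
    Real.log A) / (x + t * Complex.I)‖ ^ 2)

open Pool.Agent.TH942.ES
open Pool.Agent.V11288
open Pool.Agent.V11190

/-- The central point `(i + 1)/2`. -/
noncomputable def centre (i : ℕ) : ℝ := ((i : ℝ) + 1) / 2

/-- the normalised eigenvalues -/
noncomputable def nal (i : ℕ) (α : S → Fin N → ℂ) (v : S) (j : Fin N) : ℂ :=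
  α v j * (((nrm v.1 : ℝ) ^ (-((i : ℝ) / 2)) : ℝ) : ℂ)

/-- the norms -/
noncomputable abbrev nmS (S : Set (HeightOneSpectrum (𝓞 K))) (v : S) : ℕ :=
  Pool.Agent.H921R2.TatePole.nm v.1

theorem frob_iff {X : Set (MvPolynomial (Fin n) (𝓞 K))} {d i : ℕ} {v : HeightOneSpectrum (𝓞 K)}
    {α : Fin N → ℂ} : IsFrobenius X d i v α ↔ EV.IsFrobenius X d i v α := Iff.rfl

theorem nrm_two (v : HeightOneSpectrum (𝓞 K)) : (2 : ℝ) ≤ nrm v := by
  exact_mod_cast Pool.Agent.H921R2.TatePole.two_le_nm v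

theorem zv_eq (i : ℕ) (α : S → Fin N → ℂ) (v : S) (j : Fin N) :
    zv (fun v : S => Pool.Agent.H921R2.TatePole.nm v.1) (nal i α) v j =
      α v j * ((((nrm v.1 : ℝ) ^ centre i)⁻¹ : ℝ) : ℂ) := by
  have h2 := nrm_two v.1
  have h0 : (0 : ℝ) < nrm v.1 := by linarith
  change α v j * (((nrm v.1 : ℝ) ^ (-((i : ℝ) / 2)) : ℝ) : ℂ) / ((√(nrm v.1 : ℝ) : ℝ) : ℂ) = _
  rw [mul_div_assoc, ← Complex.ofReal_div]
  congr 2
  rw [Real.sqrt_eq_rpow, ← Real.rpow_sub h0, ← Real.rpow_neg h0.le]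
  congr 1
  unfold centre
  ring

theorem norm_lt {i : ℕ} {α : S → Fin N → ℂ} (h : Pure i α) (v : S) (j : Fin N) :
    ‖α v j * ((((nrm v.1 : ℝ) ^ centre i)⁻¹ : ℝ) : ℂ)‖ < 1 := by
  have h2 := nrm_two v.1
  have h0 : (0 : ℝ) < nrm v.1 := by linarith
  have h1 := h.1 v j
  rw [norm_mul, Complex.norm_real, Real.norm_eq_abs, abs_of_pos (by positivity)]
  have h3 : (nrm v.1 : ℝ) ^ ((i : ℝ) / 2) * ((nrm v.1 : ℝ) ^ centre i)⁻¹ < 1 := by
    rw [← Real.rpow_neg h0.le, ← Real.rpow_add h0]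
    refine Real.rpow_lt_one_of_one_lt_of_neg (by linarith) ?_
    unfold centre
    linarith
  exact (mul_le_mul_of_nonneg_right h1 (by positivity)).trans_lt h3

theorem nal_norm {i : ℕ} {α : S → Fin N → ℂ} (h : Pure i α) (v : S) (j : Fin N) :
    ‖nal i α v j‖ ≤ 1 := by
  have h2 := nrm_two v.1
  have h0 : (0 : ℝ) < nrm v.1 := by linarith
  have h1 := h.1 v j
  unfold nal
  rw [norm_mul, Complex.norm_real, Real.norm_eq_abs, abs_of_pos (by positivity)]
  calc ‖α v j‖ * (nrm v.1 : ℝ) ^ (-((i : ℝ) / 2)) ≤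
        (nrm v.1 : ℝ) ^ ((i : ℝ) / 2) * (nrm v.1 : ℝ) ^ (-((i : ℝ) / 2)) := by gcongr
    _ = 1 := by rw [← Real.rpow_add h0, add_neg_cancel, Real.rpow_zero]

theorem pow_real {i : ℕ} {α : S → Fin N → ℂ} (h : Pure i α) (v : S) (c : ℝ) (k : ℕ) :
    (∑ j, (α v j * (c : ℂ)) ^ k).im = 0 := by
  simp only [mul_pow]
  rw [← Finset.sum_mul, ← Complex.ofReal_pow, Complex.im_mul_ofReal, h.2 v k, zero_mul]

theorem sys {i : ℕ} {α : S → Fin N → ℂ} (h : Pure i α) :
    Sys (fun v : S => Pool.Agent.H921R2.TatePole.nm v.1) (nal i α) :=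
  nf_sys (fun v => v ∈ S) (nal i α) (fun v j => nal_norm h v j) fun v => by
    have h1 : ∀ j, nal i α v j / ((√(((Pool.Agent.H921R2.TatePole.nm v.1 : ℕ) : ℝ)) : ℝ) : ℂ) =
        α v j * ((((nrm v.1 : ℝ) ^ centre i)⁻¹ : ℝ) : ℂ) := fun j => zv_eq i α v j
    simp only [h1]
    exact MC.log_im (fun j => norm_lt h v j) fun k => pow_real h v _ k

theorem factor_eq (i : ℕ) (α : S → Fin N → ℂ) (s : ℂ) :
    (fun v : S => factor α v s) = fun v : S =>
      ∏ j, (1 - zv (fun v : S => Pool.Agent.H921R2.TatePole.nm v.1) (nal i α) v j *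
        xv (fun v : S => Pool.Agent.H921R2.TatePole.nm v.1) v (s - centre i))⁻¹ := by
  funext v
  have h2 := nrm_two v.1
  have h0 : (0 : ℝ) < nrm v.1 := by linarith
  have hc : (nrm v.1 : ℂ) ≠ 0 := by exact_mod_cast h0.ne'
  unfold factor
  refine Finset.prod_congr rfl fun j _ => ?_
  rw [zv_eq]
  congr 2
  rw [mul_assoc]
  congr 1
  have e1 : xv (fun v : S => Pool.Agent.H921R2.TatePole.nm v.1) v (s - centre i) =
      (nrm v.1 : ℂ) ^ (-(s - centre i)) := by
    rw [Complex.cpow_def_of_ne_zero hc]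
    unfold xv
    congr 1
    change -((s - centre i) * ((Real.log (nrm v.1 : ℝ) : ℝ) : ℂ)) = _
    rw [Complex.ofReal_log h0.le, Complex.ofReal_natCast]
    ring
  rw [e1, ← Real.rpow_neg h0.le, Complex.ofReal_cpow h0.le, Complex.ofReal_natCast,
    ← Complex.cpow_add _ _ hc]
  congr 1
  push_cast
  ring

theorem hasProd_iff {i : ℕ} {α : S → Fin N → ℂ} (h : Pure i α) {s : ℂ}
    (hs : (i : ℝ) / 2 + 1 < s.re) (y : ℂ) :
    HasProd (fun v : S => factor α v s) y ↔
      y = Pool.Agent.TH942.ES.LE (fun v : S => Pool.Agent.H921R2.TatePole.nm v.1) (nal i α)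
        (s - centre i) := by
  have h1 : 1 / 2 < (s - centre i).re := by
    rw [Complex.sub_re, Complex.ofReal_re]
    unfold centre
    linarith
  have h2 := (sys h).hasProd h1
  rw [factor_eq i α s]
  constructor
  · intro h
    exact h.tprod_eq.symm
  · rintro rfl
    unfold Pool.Agent.TH942.ES.LE
    rw [h2.tprod_eq]
    exact h2

theorem term_eq (i : ℕ) (α : S → Fin N → ℂ) (σ : ℝ) (p : S × ℕ) :
    cP (fun v : S => Pool.Agent.H921R2.TatePole.nm v.1)
      (HS.shr (fun v : S => Pool.Agent.H921R2.TatePole.nm v.1) (nal i α) (σ - centre i)) p =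
    (∑ j, α p.1 j ^ (p.2 + 1)).re / (((p.2 : ℝ) + 1) * ((nrm p.1.1 : ℝ) ^ σ) ^ (p.2 + 1)) := by
  have h2 := nrm_two p.1.1
  have h0 : (0 : ℝ) < nrm p.1.1 := by linarith
  have h3 : (0 : ℝ) < (nrm p.1.1 : ℝ) ^ σ := by positivity
  have key : ∀ j, zv (fun v : S => Pool.Agent.H921R2.TatePole.nm v.1)
      (HS.shr (fun v : S => Pool.Agent.H921R2.TatePole.nm v.1) (nal i α) (σ - centre i)) p.1 j =
      α p.1 j * ((((nrm p.1.1 : ℝ) ^ σ)⁻¹ : ℝ) : ℂ) := by
    intro j
    rw [HS.zv_shr (N := fun v : S => Pool.Agent.H921R2.TatePole.nm v.1) h0, zv_eq, ← HS.rpow_eq_xv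
      (N := fun v : S => Pool.Agent.H921R2.TatePole.nm v.1) h0, mul_assoc, ← Complex.ofReal_mul]
    congr 2
    change ((nrm p.1.1 : ℝ) ^ centre i)⁻¹ * (nrm p.1.1 : ℝ) ^ (-(σ - centre i)) = _
    rw [← Real.rpow_neg h0.le, ← Real.rpow_neg h0.le, ← Real.rpow_add h0]
    congr 1
    ring
  unfold cP
  simp only [key, mul_pow]
  rw [← Finset.sum_mul, ← Complex.ofReal_pow, Complex.re_mul_ofReal, inv_pow]
  field_simp

/-- the eigenvalues of Frobenius on `H^i(X)` -/
theorem pure_of_frobenius {X : Set (MvPolynomial (Fin n) (𝓞 K))} {d i : ℕ} (hi : i ≤ 2 * d)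
    {α : S → Fin N → ℂ} (h : ∀ v, IsFrobenius X d i v.1 (α v)) : Pure i α := by
  refine ⟨fun v j => ?_, fun v k => ?_⟩
  · have h1 : ‖α v j‖ = (nrm v.1 : ℝ) ^ ((i : ℝ) / 2) := EV.norm' (frob_iff.1 (h v)) j
    exact h1.le
  · refine EV.real_sum hi (frob_iff.1 (h v)) (fun z => z ^ k) fun j => ?_
    rw [map_pow]

/-- the product over the divisor in the coordinate `s - c` -/
theorem qw_shift (D : Finset ℂ) (m : ℂ → ℤ) (c σ : ℝ) (s : ℂ) :
    MC.qw (MC.shW D c) (fun w => m (w + (c : ℝ))) (σ - c) (s - c) =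
      ∏ w ∈ D, ((s - w) / (s - σ)) ^ m w := by
  unfold MC.qw MC.shW
  rw [Finset.prod_image fun a _ b _ h => MC.shW_inj c h]
  refine Finset.prod_congr rfl fun w _ => ?_
  beta_reduce
  rw [sub_add_cancel]
  congr 1
  push_cast
  congr 1 <;> ring

theorem sum_shift (D : Finset ℂ) (m : ℂ → ℤ) (c σ Y : ℝ) :
    ∑ w ∈ MC.shW D c, ((fun w => m (w + (c : ℝ))) w : ℝ) *
      (HS.Ein ((w - ((σ - c : ℝ) : ℂ)) * (Real.log Y : ℝ))).re =
      ∑ w ∈ D, (m w : ℝ) * (Ein ((w - σ) * (Real.log Y : ℝ))).re := by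
  unfold MC.shW
  rw [Finset.sum_image fun a _ b _ h => MC.shW_inj c h]
  refine Finset.sum_congr rfl fun w _ => ?_
  beta_reduce
  rw [sub_add_cancel]
  have e : w - (c : ℂ) - ((σ - c : ℝ) : ℂ) = w - σ := by
    push_cast
    ring
  rw [e]
  rfl

/-- **Theorem.** (1) Let `α` be a pure system of weight `i` with real traces at the primes `v ∈ S` of a number
field, `(i + 1)/2 ≤ σ < i/2 + 1`, and let `∑_{w ∈ D} m(w) [w]` be a finite divisor in the strip
`σ < Re w ≤ i/2 + 1`, symmetric about the real axis.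

(a) For all real `r`, all `A > 0` and all `C ≥ 0`: the integral
`∫_1^∞ (log P_σ(Y) + ∑_w m(w) Ein((w - σ) log Y) + r (γ + log log Y) - log A)² dY/Y` is at most `C` if and only if
`L` has a meromorphic continuation `F` to `Re s > σ` with the divisor `∑ m(w) [w]`, with
`∫_{Re s = σ + x} |ℓ(s) - r log (s - σ) - log A|² / |s - σ|² |ds| ≤ 2π C` for all `x > 0` for a logarithm `ℓ` of
`F(s) ∏ ((s - σ)/(s - w))^{m(w)}`.

(b) In this case `|ℓ(s) - r log (s - σ) - log A|² ≤ C |s - σ|² / (2 (Re s - σ))` for `Re s > σ`.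

(c) For every meromorphic continuation `F` of `L` to `Re s > σ` with the divisor `∑ m(w) [w]` there is such
a logarithm `ℓ`.

(2) The eigenvalues of Frobenius on `H^i(X)`, `X` a projective variety of dimension `d`, `i ≤ 2d`, are such
systems. -/
theorem result :
    (∀ (S : Set (HeightOneSpectrum (𝓞 K))) (N i : ℕ) (α : S → Fin N → ℂ), Pure i α →
      ∀ (σ : ℝ), ((i : ℝ) + 1) / 2 ≤ σ → σ < (i : ℝ) / 2 + 1 →
      ∀ (D : Finset ℂ) (m : ℂ → ℤ), IsDivisor i σ D m →
      (∀ r A C : ℝ, 0 < A → 0 ≤ C →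
        (meanSquare α σ D m r A ≤ ENNReal.ofReal C ↔ ∃ F ℓ : ℂ → ℂ,
          IsContinuation i α σ D m F ∧ IsLog σ D m F ℓ ∧
          ∀ x : ℝ, 0 < x → vertical σ ℓ r A x ≤ ENNReal.ofReal (2 * Real.pi * C)) ∧
        (meanSquare α σ D m r A ≤ ENNReal.ofReal C → ∃ F ℓ : ℂ → ℂ,
          IsContinuation i α σ D m F ∧ IsLog σ D m F ℓ ∧
          ∀ s : ℂ, σ < s.re → ‖ℓ s - r * Complex.log (s - σ) - Real.log A‖ ^ 2 ≤
            C * ‖s - σ‖ ^ 2 / (2 * (s.re - σ)))) ∧
      ∀ F : ℂ → ℂ, IsContinuation i α σ D m F → ∃ ℓ : ℂ → ℂ, IsLog σ D m F ℓ) ∧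
    ∀ (X : Set (MvPolynomial (Fin n) (𝓞 K))) (d i : ℕ), i ≤ 2 * d →
      ∀ (S : Set (HeightOneSpectrum (𝓞 K))) (N : ℕ) (α : S → Fin N → ℂ),
        (∀ v, IsFrobenius X d i v.1 (α v)) → Pure i α := by
  refine ⟨fun S N i α h σ hσ hσ' D m hD => ?_, fun X d i hi S N α h => pure_of_frobenius hi h⟩
  refine ⟨fun r A C _ hC => ?_, fun F hF => MC.exists_mlog hF.mero⟩
  have E := sys h
  have hreal : ∀ (v : S) (k : ℕ),
      (∑ j, zv (fun v : S => Pool.Agent.H921R2.TatePole.nm v.1) (nal i α) v j ^ k).im = 0 := by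
    intro v k
    simp only [zv_eq]
    exact pow_real h v _ k
  obtain ⟨c, hc⟩ : ∃ c : ℝ, c = centre i := ⟨_, rfl⟩
  have hc' : c = ((i : ℝ) + 1) / 2 := hc
  have hS : MC.Sym (MC.shW D c) (fun w => m (w + (c : ℝ))) := MC.sym_shW (fun w hw => hD.symm w hw) c
  have hW : ∀ w ∈ MC.shW D c, w.re ≤ 1 / 2 := by
    intro w hw
    obtain ⟨w', hw', rfl⟩ := Finset.mem_image.1 hw
    rw [Complex.sub_re, Complex.ofReal_re]
    linarith [(hD.strip w' hw').2]
  obtain ⟨h1, h2⟩ := MC.mero_shift E hreal hS (δ := σ - c) (by linarith) (by linarith) hW r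
    (Real.log A) hC
  have hms : ∫⁻ Y in Ioi (1 : ℝ), ENNReal.ofReal
      (MC.Ds (fun v : S => Pool.Agent.H921R2.TatePole.nm v.1)
      (nal i α) (MC.shW D c) (fun w => m (w + (c : ℝ))) (σ - c) r (Real.log A) Y ^ 2 / Y) =
      meanSquare α σ D m r A := by
    unfold meanSquare MC.Ds
    refine lintegral_congr fun Y => ?_
    rw [sum_shift]
    unfold Pool.Agent.TH270.MS.Pl logP
    rw [hc]
    simp only [term_eq]
    rfl
  rw [hms] at h1 h2
  have hre : ∀ s : ℂ, (s - (c : ℂ)).re = s.re - c := fun s => by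
    rw [Complex.sub_re, Complex.ofReal_re]
  have hre' : ∀ s : ℂ, (s + (c : ℂ)).re = s.re + c := fun s => by
    rw [Complex.add_re, Complex.ofReal_re]
  have hprod : ∀ {s : ℂ}, (i : ℝ) / 2 + 1 < s.re → ∀ y : ℂ,
      HasProd (fun v : S => factor α v s) y ↔
      y = Pool.Agent.TH942.ES.LE (fun v : S => Pool.Agent.H921R2.TatePole.nm v.1) (nal i α)
        (s - c) := by
    intro s hs y
    rw [hc]
    exact hasProd_iff h hs y
  -- from the coordinate `s - c` to `s`
  have tr : ∀ ℓ : ℂ → ℂ, (∀ s : ℂ, σ - c < s.re → DifferentiableAt ℂ ℓ s) →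
      (∀ s : ℂ, 1 / 2 < s.re → Complex.exp (ℓ s) *
        MC.qw (MC.shW D c) (fun w => m (w + (c : ℝ))) (σ - c) s =
        Pool.Agent.TH942.ES.LE (fun v : S => Pool.Agent.H921R2.TatePole.nm v.1) (nal i α) s) →
      IsContinuation i α σ D m (fun s => Complex.exp (ℓ (s - c)) * MC.qw D m σ s) ∧
      IsLog σ D m (fun s => Complex.exp (ℓ (s - c)) * MC.qw D m σ s) (fun s => ℓ (s - c)) := by
    intro ℓ a1 a2
    have b1 : ∀ s : ℂ, σ < s.re → DifferentiableAt ℂ (fun s => ℓ (s - c)) s := by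
      intro s hs
      exact (a1 (s - c) (by rw [hre]; linarith)).comp s (by fun_prop)
    refine ⟨⟨fun s hs => MC.order_shift b1 hs, fun s hs => ?_⟩,
      ⟨b1, fun s _ => Eventually.of_forall fun z => rfl⟩⟩
    rw [hprod hs, ← a2 (s - c) (by rw [hre]; linarith), qw_shift]
    rfl
  refine ⟨h1.trans ⟨?_, ?_⟩, fun hm => ?_⟩
  · rintro ⟨ℓ, a1, a2, a3⟩
    obtain ⟨b1, b2⟩ := tr ℓ a1 a2
    refine ⟨_, _, b1, b2, fun x hx => ?_⟩
    refine le_trans (le_of_eq ?_) (a3 x hx)
    unfold vertical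
    refine lintegral_congr fun t => ?_
    have e : (σ : ℂ) + x + t * Complex.I - c = ((σ - c : ℝ) : ℂ) + x + t * Complex.I := by
      push_cast
      ring
    beta_reduce
    rw [e]
  · rintro ⟨F, ℓ, b1, ⟨b2, b3⟩, b4⟩
    refine ⟨fun s => ℓ (s + c), fun s hs => ?_, fun s hs => ?_, fun x hx => ?_⟩
    · exact (b2 (s + c) (by rw [hre']; linarith)).comp s (by fun_prop)
    · -- both sides are continuous
      have hs3 : (i : ℝ) / 2 + 1 < (s + c).re := by rw [hre']; linarith
      have hUo : IsOpen {z : ℂ | ((i : ℝ) / 2 + 1 : ℝ) < z.re} :=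
        isOpen_lt continuous_const Complex.continuous_re
      have c1 : ∀ᶠ z in 𝓝[≠] (s + c), Complex.exp (ℓ z) * MC.qw D m σ z =
          Pool.Agent.TH942.ES.LE (fun v : S => Pool.Agent.H921R2.TatePole.nm v.1) (nal i α)
            (z - c) := by
        filter_upwards [b3 (s + c) (by linarith), mem_nhdsWithin_of_mem_nhds (hUo.mem_nhds hs3)]
          with z hz1 hz2
        rw [← (hprod hz2 _).1 (b1.prod z hz2), hz1]
        rfl
      have c2 : ContinuousAt (fun z : ℂ => Complex.exp (ℓ z) * MC.qw D m σ z) (s + c) := by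
        have d1 := (b2 (s + c) (by linarith)).cexp
        have hz2 : s + c - (σ : ℂ) ≠ 0 := sub_ne_zero.2 (MC.ne_of_re (by linarith))
        have d2 : DifferentiableAt ℂ (MC.qw D m σ) (s + c) := by
          unfold MC.qw
          refine DifferentiableAt.fun_finsetProd fun w hw => ?_
          have h1 : DifferentiableAt ℂ (fun z : ℂ => (z - w) / (z - σ)) (s + c) :=
            ((differentiableAt_id.sub_const _).div (differentiableAt_id.sub_const _) hz2)
          refine h1.zpow (Or.inl (div_ne_zero ?_ hz2))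
          rw [sub_ne_zero]
          rintro rfl
          have := (hD.strip _ hw).2
          linarith
        exact (d1.mul d2).continuousAt
      have c3 : ContinuousAt (fun z : ℂ => Pool.Agent.TH942.ES.LE
          (fun v : S => Pool.Agent.H921R2.TatePole.nm v.1) (nal i α) (z - c)) (s + c) := by
        have d1 := MC.LE_diff E hreal (s := s + c - c) (by rw [add_sub_cancel_right]; exact hs)
        exact (DifferentiableAt.comp (f := fun z : ℂ => z - c) (s + c) d1 (by fun_prop)).continuousAt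
      have c4 := tendsto_nhds_unique_of_eventuallyEq
        (c2.tendsto.mono_left nhdsWithin_le_nhds) (c3.tendsto.mono_left nhdsWithin_le_nhds) c1
      rw [add_sub_cancel_right] at c4
      rw [← c4]
      have c5 := qw_shift D m c σ (s + c)
      rw [add_sub_cancel_right] at c5
      rw [c5]
      rfl
    · refine le_trans (le_of_eq ?_) (b4 x hx)
      unfold vertical
      refine lintegral_congr fun t => ?_
      have e : ((σ - c : ℝ) : ℂ) + x + t * Complex.I + c = σ + x + t * Complex.I := by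
        push_cast
        ring
      beta_reduce
      rw [e]
  · obtain ⟨ℓ, a1, a2, a3⟩ := h2 hm
    obtain ⟨b1, b2⟩ := tr ℓ a1 a2
    refine ⟨_, _, b1, b2, fun s hs => ?_⟩
    have h4 := a3 (s - c) (by rw [hre]; linarith)
    rw [hre] at h4
    have e : s - c - (((σ - c : ℝ)) : ℂ) = s - σ := by
      push_cast
      ring
    rw [e] at h4
    refine h4.trans (le_of_eq ?_)
    congr 2
    ring

end Pool.Agent.Results.MP_039d94_nt.MeromorphicCriterion
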