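import Pool.Agent.V11333.PureConj

/-!
# Meromorphic continuation of `L(H^i(X), s)` to sectors and to the half plane right of the centre, from the
# real axis and bounds from one side

Let `X` be a smooth projective variety over a number field `K` (for example `K = ℚ`), `0 ≤ i ≤ 2 dim X`, and for
all primes `v` in a set `S` (in the main case all primes of good reduction) let `α_{v,1}, …, α_{v,N}` be the
eigenvalues of Frobenius on `H^i(X)`; more generally let `α` be a pure system of weight `i` with real traces. Let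
`L(s) = ∏_{v ∈ S} ∏_j (1 - α_{v,j} q_v^{-s})⁻¹`, `Re s > i/2 + 1`, and let `c = (i + 1)/2` be the centre. With the
weights `w_ρ(u) = (1/2πi) ∫ exp(z - u z^{1/ρ}) dz/z`, `ρ > 1`, consider the means

`S_ρ(Y) = ∑_{v ∈ S} w_ρ(log q_v / log Y) log |∏_j (1 - α_{v,j} q_v^{-c})|`, `q_v ≤ exp ((log Y)^{ρ'})`, `ρ' > ρ`.

A symmetric divisor in the sector is a finite sum `∑ m(β) [β]`, `m(β) ∈ ℤ`, over points `β` of the sector
`|arg (s - c)| < π/(2ρ)` with `Re β ≤ i/2 + 1`, with `m(β̄) = m(β)`. Its main term is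
`M(Y) = Re ∑ m(β) Ein((β - c)^ρ (log Y)^ρ)`, `Ein(z) = ∑_{n ≥ 1} z^n / (n n!)`. The theorem:

1. For all `ρ' > ρ > 1` and every symmetric divisor in the sector the following are equivalent:
   (a) `L(s)` has a meromorphic continuation to the union of the half plane `Re s > i/2 + 1` and the sector
       `|arg (s - c)| < π/(2ρ)` with exactly this divisor of zeros and poles;
   (b) `L(s) = F(s) ∏ (s - β)^{m(β)}` at the real `s > i/2 + 1` with a function `F` which is analytic at all REAL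
       `s > c`, and `S_ρ(Y) ≤ M(Y) + C exp(ε (log Y)^ρ)` for every `ε > 0`;
   (c) `L(s) = F(s)⁻¹ ∏ (s - β)^{m(β)}` with `F` of the same kind, and `S_ρ(Y) ≥ M(Y) - C exp(ε (log Y)^ρ)` for
       every `ε > 0`.
2. `L(s)` has a meromorphic continuation to the half plane `Re s > c` with finitely many zeros and poles in
   each sector `|arg (s - c)| < θ < π/2` if and only if for every `ρ > 1` there are `ρ' > ρ` and a symmetric divisor
   in the sector with (b); and if and only if for every `ρ > 1` there are `ρ' > ρ` and a symmetric divisor in the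
   sector with (c). In this case for all `ρ' > ρ > 1` there is a symmetric divisor with (a), (b) and (c).

The point: the continuation is only assumed along the real axis and the bound only from one side; the zeros
and poles of `L` off the real axis (and those on it, if they are not in the divisor) are excluded by the theorem.
The question of the problem allows one pole, at `i/2 + 1`, for even `i`, which is on the edge of the allowed region
for divisors. The Riemann hypothesis is not assumed: the zeros to the right of the centre are terms of the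
divisor.

Proof. Landau's theorem for a continuation along the real axis (`Pool.Agent.V11333.OneSide1`) is applied to
`S_ρ - M` as a function of `(log Y)^ρ`: its Laplace transform at `v` is the logarithm of the Euler product at
`c + v^{1/ρ}` divided by the factors `1 - (β - c)^ρ / v`, over `v`, up to a correction which is holomorphic for
`Re v > 0`. The converse is the theorem `exp_of_cont` of the library `Pool.Agent.V11291.ME`.
-/

set_option autoImplicit false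

namespace Pool.Agent.Results.MP_039d94_nt.OneSidedSectors

open Filter Topology Set NumberField IsDedekindDomain

variable {K : Type} [Field K] [NumberField K] {n N : ℕ}

/-- The norm `q_v`. -/
noncomputable def nrm (v : HeightOneSpectrum (𝓞 K)) : ℕ := Ideal.absNorm v.asIdeal

/-- The set `X` of homogeneous polynomials over `𝓞_K` in `n` variables gives a projective variety over
`K`.  For a field `κ` with `q` elements and a homomorphism `𝓞_K → κ` this is `(q - 1)` times the number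
of the points of `X` with coordinates in `κ`: the number of the nonzero solutions of the equations. -/
noncomputable def cone (X : Set (MvPolynomial (Fin n) (𝓞 K))) {κ : Type} [Field κ]
    (φ : 𝓞 K →+* κ) : ℕ :=
  Nat.card {u : Fin n → κ // u ≠ 0 ∧ ∀ f ∈ X, MvPolynomial.eval₂ φ u f = 0}

/-- `α_1, …, α_N` are the eigenvalues of the geometric Frobenius at the prime `v` of `K` on `H^i(X)`,
for a variety `X` of dimension `d`: there are finite multisets `β_k` of complex numbers of absolute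
value `q_v^{k/2}`, `k = 0, …, 2d`, with `β_i = {α_1, …, α_N}`, such that for every finite extension
`κ` of the residue field of `v`, of degree `e`, the number of the points of `X` with coordinates in
`κ` is `∑ (-1)^k ∑_{z ∈ β_k} z^e`.  By the theorem of Deligne such `β_k` exist at almost all primes
if `X` is smooth, with `N` the `i`-th Betti number of `X`; for `k ≤ 2d` they are unique. -/
def IsFrobenius (X : Set (MvPolynomial (Fin n) (𝓞 K))) (d i : ℕ)
    (v : HeightOneSpectrum (𝓞 K)) (α : Fin N → ℂ) : Prop :=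
  ∃ β : ℕ → Multiset ℂ, β i = Finset.univ.val.map α ∧
    (∀ k, ∀ z ∈ β k, ‖z‖ = (nrm v : ℝ) ^ ((k : ℝ) / 2)) ∧
    ∀ (κ : Type) [Field κ] [Finite κ] (φ : 𝓞 K →+* κ) (e : ℕ), RingHom.ker φ = v.asIdeal →
      Nat.card κ = nrm v ^ e →
      (cone X φ : ℂ) = ((nrm v : ℂ) ^ e - 1) *
          ∑ k ∈ Finset.range (2 * d + 1), (-1 : ℂ) ^ k * ((β k).map (fun z => z ^ e)).sum

variable {S : Set (HeightOneSpectrum (𝓞 K))}

/-- The Euler factor `∏_j (1 - α_{v,j} q_v^{-s})⁻¹`. -/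
noncomputable def factor (α : S → Fin N → ℂ) (v : S) (s : ℂ) : ℂ :=
  ∏ j, (1 - α v j * (nrm v.1 : ℂ) ^ (-s))⁻¹

/-- `y` is the value of the Euler product `L` at `s`. -/
def IsL (α : S → Fin N → ℂ) (s y : ℂ) : Prop := HasProd (fun v : S => factor α v s) y

/-- The central point `(i + 1)/2`. -/
noncomputable def centre (i : ℕ) : ℝ := ((i : ℝ) + 1) / 2

/-- `α` is a pure system of weight `i` with real traces: `|α_{v,j}| ≤ q_v^{i/2}` for all `v ∈ S` and `j`, and the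
traces `∑_j α_{v,j}^k` are real. -/
def Pure (i : ℕ) (α : S → Fin N → ℂ) : Prop :=
  (∀ v j, ‖α v j‖ ≤ (nrm v.1 : ℝ) ^ ((i : ℝ) / 2)) ∧ ∀ v k, (∑ j, α v j ^ k).im = 0

/-- The open sector `|arg (s - c)| < π/(2ρ)` with vertex `c`. -/
def Sector (i : ℕ) (ρ : ℝ) : Set ℂ := {s | s ≠ centre i ∧ |(s - centre i).arg| < Real.pi / (2 * ρ)}

/-- The weight `w_ρ(u) = (1/2πi) ∫_{Re z = 1} exp(z - u z^{1/ρ}) dz/z`. -/
noncomputable def weight (ρ u : ℝ) : ℝ :=
  (2 * Real.pi)⁻¹ * ∫ t : ℝ, (Complex.exp ((1 + t * Complex.I) -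
    u * (1 + t * Complex.I) ^ ((ρ⁻¹ : ℝ) : ℂ)) / (1 + t * Complex.I)).re

/-- The mean `S_ρ(Y) = ∑ w_ρ(log q_v / log Y) log |∏_j (1 - α_{v,j} q_v^{-c})|` over the `v ∈ S` with
`q_v ≤ exp ((log Y)^{ρ'})`. -/
noncomputable def mean (i : ℕ) (α : S → Fin N → ℂ) (ρ ρ' Y : ℝ) : ℝ :=
  ∑ᶠ (v : S) (_ : (nrm v.1 : ℝ) ≤ Real.exp (Real.log Y ^ ρ')),
    weight ρ (Real.log (nrm v.1) / Real.log Y) *
      Real.log ‖∏ j, (1 - α v j * (nrm v.1 : ℂ) ^ (-(centre i : ℂ)))‖

/-- The entire function `Ein(z) = ∑_{n ≥ 1} z^n / (n n!)`. -/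
noncomputable def ein (z : ℂ) : ℂ := ∑' n : ℕ, z ^ (n + 1) / ((n + 1) * (n + 1).factorial)

/-- `∑ m(β) [β]`, `β ∈ Z`, is a symmetric divisor in the sector `|arg (s - c)| < π/(2ρ)`, `Re s ≤ i/2 + 1`. -/
def IsDivisor (i : ℕ) (ρ : ℝ) (Z : Finset ℂ) (m : ℂ → ℤ) : Prop :=
  (∀ β ∈ Z, β ∈ Sector i ρ ∧ β.re ≤ (i : ℝ) / 2 + 1) ∧
    ∀ β ∈ Z, (starRingEnd ℂ) β ∈ Z ∧ m ((starRingEnd ℂ) β) = m β

/-- The main term `M(Y) = Re ∑ m(β) Ein((β - c)^ρ (log Y)^ρ)` (for symmetric divisors the sum is real). -/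
noncomputable def mainTerm (i : ℕ) (Z : Finset ℂ) (m : ℂ → ℤ) (ρ Y : ℝ) : ℝ :=
  (∑ β ∈ Z, (m β : ℂ) * ein ((β - centre i) ^ (ρ : ℂ) * ((Real.log Y ^ ρ : ℝ) : ℂ))).re

/-- (a): `L(s)` is `H(s) ∏ (s - β)^{m(β)}` with a function `H` which is holomorphic and without zeros in the union
of the sector and the half plane `Re s > i/2 + 1`. -/
def ContinuesWith (i : ℕ) (α : S → Fin N → ℂ) (ρ : ℝ) (Z : Finset ℂ) (m : ℂ → ℤ) : Prop :=
  ∃ H : ℂ → ℂ, (∀ s : ℂ, s ∈ Sector i ρ ∨ (i : ℝ) / 2 + 1 < s.re →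
      DifferentiableAt ℂ H s ∧ H s ≠ 0) ∧
    ∀ s : ℂ, (i : ℝ) / 2 + 1 < s.re → IsL α s (H s * ∏ β ∈ Z, (s - β) ^ m β)

/-- `L(s) = F(s) ∏ (s - β)^{m(β)}` at the real `s > i/2 + 1`, `F` analytic at all real points `x > c`. -/
def RealContinues (i : ℕ) (α : S → Fin N → ℂ) (Z : Finset ℂ) (m : ℂ → ℤ) : Prop :=
  ∃ F : ℂ → ℂ, (∀ x : ℝ, centre i < x → AnalyticAt ℂ F x) ∧
    ∀ x : ℝ, (i : ℝ) / 2 + 1 < x → IsL α x (F x * ∏ β ∈ Z, ((x : ℂ) - β) ^ m β)

/-- `L(s) = F(s)⁻¹ ∏ (s - β)^{m(β)}` at the real `s > i/2 + 1`, `F` analytic at all real points `x > c`. -/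
def RealContinuesInv (i : ℕ) (α : S → Fin N → ℂ) (Z : Finset ℂ) (m : ℂ → ℤ) : Prop :=
  ∃ F : ℂ → ℂ, (∀ x : ℝ, centre i < x → AnalyticAt ℂ F x) ∧
    ∀ x : ℝ, (i : ℝ) / 2 + 1 < x → IsL α x ((F x)⁻¹ * ∏ β ∈ Z, ((x : ℂ) - β) ^ m β)

/-- `S_ρ(Y) ≤ M(Y) + C exp(ε (log Y)^ρ)` for every `ε > 0`, with some `C`, for large `Y`. -/
def Upper (i : ℕ) (α : S → Fin N → ℂ) (ρ ρ' : ℝ) (Z : Finset ℂ) (m : ℂ → ℤ) : Prop :=
  ∀ ε : ℝ, 0 < ε → ∃ C : ℝ, ∀ᶠ Y : ℝ in atTop,
    mean i α ρ ρ' Y ≤ mainTerm i Z m ρ Y + C * Real.exp (ε * Real.log Y ^ ρ)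

/-- `S_ρ(Y) ≥ M(Y) - C exp(ε (log Y)^ρ)` for every `ε > 0`, with some `C`, for large `Y`. -/
def Lower (i : ℕ) (α : S → Fin N → ℂ) (ρ ρ' : ℝ) (Z : Finset ℂ) (m : ℂ → ℤ) : Prop :=
  ∀ ε : ℝ, 0 < ε → ∃ C : ℝ, ∀ᶠ Y : ℝ in atTop,
    mainTerm i Z m ρ Y - C * Real.exp (ε * Real.log Y ^ ρ) ≤ mean i α ρ ρ' Y

/-- `f` is a meromorphic continuation of `L(s)` to `Re s > c`, with finitely many zeros and poles in each of the
sectors. -/
def IsContinuation (i : ℕ) (α : S → Fin N → ℂ) (f : ℂ → ℂ) : Prop :=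
  MeromorphicOn f {s | centre i < s.re} ∧ (∀ s : ℂ, (i : ℝ) / 2 + 1 < s.re → IsL α s (f s)) ∧
    ∀ ρ : ℝ, 1 < ρ → {s : ℂ | s ∈ Sector i ρ ∧ meromorphicOrderAt f s ≠ 0}.Finite

open Pool.Agent.TH942.ES Pool.Agent.V11333 Pool.Agent.V11333.OneSide Pool.Agent.V11291.ME

section tools

variable {i : ℕ} {α : S → Fin N → ℂ} {ρ ρ' : ℝ} {Z : Finset ℂ} {m : ℂ → ℤ}

theorem mean_eq (h : Pure i α) (ρ ρ' Y : ℝ) : mean i α ρ ρ' Y =
    SrE (fun v : S => Pool.Agent.H921R2.TatePole.nm v.1) (EVS.nal i α) ρ ρ' Y := by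
  unfold mean SrE
  refine finsum_congr fun v => finsum_congr fun _ => ?_
  rw [PS.cv_log (i := i) (α := α) h]
  rfl

/-- the Euler product in the shifted variable -/
noncomputable def LL (i : ℕ) (α : S → Fin N → ℂ) (s : ℂ) : ℂ :=
  LE (fun v : S => Pool.Agent.H921R2.TatePole.nm v.1) (EVS.nal i α) s

theorem isL_iff (h : Pure i α) {s : ℂ} (hs : (i : ℝ) / 2 + 1 < s.re) (y : ℂ) :
    IsL α s y ↔ y = LL i α (s - centre i) :=
  PS.hasProd_iff (i := i) (α := α) h hs y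

theorem sector_shift (i : ℕ) (ρ : ℝ) (s : ℂ) :
    s ∈ Sector i ρ ↔ s - centre i ∈ Pool.Agent.TH942.SL.Sect ρ := by
  unfold Sector Pool.Agent.TH942.SL.Sect
  simp only [Set.mem_ofPred_eq, ne_eq, sub_eq_zero]

/-- the shifted divisor -/
noncomputable def sh (i : ℕ) (Z : Finset ℂ) : Finset ℂ := Z.map (addRightEmbedding (-(centre i : ℂ)))

lemma mem_sh {γ : ℂ} (h : γ ∈ sh i Z) : γ + centre i ∈ Z := by
  unfold sh at h
  obtain ⟨β, hβ, rfl⟩ := Finset.mem_map.1 h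
  simpa using hβ

lemma mem_sh' {γ : ℂ} (h : γ + centre i ∈ Z) : γ ∈ sh i Z := by
  unfold sh
  exact Finset.mem_map.2 ⟨_, h, by simp⟩

lemma sum_sh (i : ℕ) (Z : Finset ℂ) (f : ℂ → ℂ) :
    ∑ γ ∈ sh i Z, f γ = ∑ β ∈ Z, f (β - centre i) := by
  unfold sh
  rw [Finset.sum_map]
  simp [sub_eq_add_neg]

lemma prod_sh (i : ℕ) (Z : Finset ℂ) (m : ℂ → ℤ) (s : ℂ) :
    ∏ γ ∈ sh i Z, (s - γ) ^ m (γ + centre i) = ∏ β ∈ Z, (s + centre i - β) ^ m β := by
  unfold sh
  rw [Finset.prod_map]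
  refine Finset.prod_congr rfl fun β _ => ?_
  simp only [addRightEmbedding_apply, neg_add_cancel_right]
  congr 1
  ring

theorem main_eq (i : ℕ) (Z : Finset ℂ) (m : ℂ → ℤ) (ρ Y : ℝ) :
    mainTerm i Z m ρ Y = mo (sh i Z) (fun γ => m (γ + centre i)) ρ (Real.log Y ^ ρ) := by
  unfold mainTerm mo modl
  rw [sum_sh]
  simp only [sub_add_cancel]
  rfl

theorem div_shift (h : IsDivisor i ρ Z m) :
    Symm (sh i Z) (fun γ => m (γ + centre i)) ∧
      ∀ γ ∈ sh i Z, γ ∈ Pool.Agent.TH942.SL.Sect ρ ∧ γ.re ≤ 1 / 2 := by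
  constructor
  · intro γ hγ
    obtain ⟨h1, h2⟩ := h.2 _ (mem_sh hγ)
    rw [map_add, Complex.conj_ofReal] at h1 h2
    exact ⟨mem_sh' h1, h2⟩
  · intro γ hγ
    obtain ⟨h1, h2⟩ := h.1 _ (mem_sh hγ)
    rw [sector_shift, add_sub_cancel_right] at h1
    rw [Complex.add_re, Complex.ofReal_re] at h2
    unfold centre at h2
    exact ⟨h1, by linarith⟩

theorem re_add (i : ℕ) (s : ℂ) : (s + (centre i : ℂ)).re = s.re + centre i := by
  rw [Complex.add_re, Complex.ofReal_re]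

theorem re_sub (i : ℕ) (s : ℂ) : (s - (centre i : ℂ)).re = s.re - centre i := by
  rw [Complex.sub_re, Complex.ofReal_re]

/-- the functions on the real axis -/
theorem shift_real (h : Pure i α) (g : ℂ → ℂ) {F : ℂ → ℂ}
    (h1 : ∀ x : ℝ, centre i < x → AnalyticAt ℂ F x)
    (h2 : ∀ x : ℝ, (i : ℝ) / 2 + 1 < x → IsL α x (g (F x) * ∏ β ∈ Z, ((x : ℂ) - β) ^ m β)) :
    (∀ x : ℝ, 0 < x → AnalyticAt ℂ (fun s => F (s + centre i)) x) ∧
      ∀ x : ℝ, 1 / 2 < x → g (F ((x : ℂ) + centre i)) *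
        ∏ γ ∈ sh i Z, ((x : ℂ) - γ) ^ m (γ + centre i) = LL i α x := by
  refine ⟨fun x hx => ?_, fun x hx => ?_⟩
  · have e : AnalyticAt ℂ F ((x : ℂ) + centre i) := by
      have := h1 (x + centre i) (by linarith)
      push_cast at this
      exact this
    exact AnalyticAt.comp (g := F) (f := fun s : ℂ => s + centre i) e
      (analyticAt_id.add analyticAt_const)
  · have e := h2 (x + centre i) (by unfold centre; linarith)
    rw [isL_iff h (by rw [Complex.ofReal_re]; unfold centre; linarith)] at e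
    push_cast at e
    rw [add_sub_cancel_right] at e
    rw [prod_sh]
    exact e

/-- back from the shifted variable -/
theorem cont_shift (h : Pure i α) {H : ℂ → ℂ}
    (h1 : ∀ s : ℂ, s ∈ Pool.Agent.TH942.SL.Sect ρ ∨ 1 / 2 < s.re → DifferentiableAt ℂ H s ∧ H s ≠ 0)
    (h2 : ∀ s : ℂ, 1 / 2 < s.re →
      LL i α s = H s * ∏ γ ∈ sh i Z, (s - γ) ^ m (γ + centre i)) : ContinuesWith i α ρ Z m := by
  have h3 : ∀ s : ℂ, (i : ℝ) / 2 + 1 < s.re → 1 / 2 < (s - centre i).re := fun s hs => by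
    rw [re_sub]
    unfold centre
    linarith
  refine ⟨fun s => H (s - centre i), fun s hs => ?_, fun s hs => ?_⟩
  · have h4 := h1 (s - centre i) (hs.imp (sector_shift i ρ s).1 (h3 s))
    exact ⟨h4.1.comp s (by fun_prop), h4.2⟩
  · rw [isL_iff h hs, h2 _ (h3 s hs), prod_sh, sub_add_cancel]

/-- to the shifted variable -/
theorem shift_cont (h : Pure i α) (hc : ContinuesWith i α ρ Z m) : ∃ H : ℂ → ℂ,
    (∀ s : ℂ, s ∈ Pool.Agent.TH942.SL.Sect ρ ∨ 1 / 2 < s.re → DifferentiableAt ℂ H s ∧ H s ≠ 0) ∧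
      ∀ s : ℂ, 1 / 2 < s.re → LL i α s = H s * ∏ γ ∈ sh i Z, (s - γ) ^ m (γ + centre i) := by
  obtain ⟨H, h1, h2⟩ := hc
  have h3 : ∀ s : ℂ, 1 / 2 < s.re → (i : ℝ) / 2 + 1 < (s + centre i).re := fun s hs => by
    rw [re_add]
    unfold centre
    linarith
  refine ⟨fun s => H (s + centre i), fun s hs => ?_, fun s hs => ?_⟩
  · have h4 : s + centre i ∈ Sector i ρ ∨ (i : ℝ) / 2 + 1 < (s + (centre i : ℂ)).re := by
      refine hs.imp (fun h5 => ?_) (h3 s)
      rwa [sector_shift, add_sub_cancel_right]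
    obtain ⟨h5, h6⟩ := h1 _ h4
    exact ⟨h5.comp s (by fun_prop), h6⟩
  · have h4 := (isL_iff h (h3 s hs) _).1 (h2 _ (h3 s hs))
    rw [add_sub_cancel_right] at h4
    rw [← h4, prod_sh]

theorem real_mem {x : ℝ} (hρ : 1 < ρ) (hx : centre i < x) : (x : ℂ) ∈ Sector i ρ := by
  rw [sector_shift]
  have h := Pool.Agent.TH942.SL.sect_real hρ (x := x - centre i) (by linarith)
  push_cast at h
  exact h

theorem sector_open (hρ : 1 < ρ) : IsOpen (Sector i ρ) := by
  have h : Sector i ρ = (fun s : ℂ => s - centre i) ⁻¹' Pool.Agent.TH942.SL.Sect ρ := by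
    ext s
    exact sector_shift i ρ s
  rw [h]
  exact (Pool.Agent.TH942.SL.sect_open hρ).preimage (by fun_prop)

/-- (a) implies the other two -/
theorem of_cont (h : Pure i α) (hρ : 1 < ρ) (hρ' : ρ < ρ') (hZ : IsDivisor i ρ Z m)
    (hc : ContinuesWith i α ρ Z m) :
    (RealContinues i α Z m ∧ Upper i α ρ ρ' Z m) ∧
      RealContinuesInv i α Z m ∧ Lower i α ρ ρ' Z m := by
  have E := PS.sys (i := i) (α := α) h
  obtain ⟨hS, hZ'⟩ := div_shift hZ
  have hZr : ∀ γ ∈ sh i Z, 0 < γ.re := fun γ hγ => Pool.Agent.TH942.SL.sect_re hρ (hZ' γ hγ).1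
  obtain ⟨G, g1, g2⟩ := shift_cont h hc
  obtain ⟨H, h1, h2⟩ := hc
  have hHa : ∀ x : ℝ, centre i < x → AnalyticAt ℂ H x := fun x hx =>
    DifferentiableOn.analyticAt (s := Sector i ρ)
      (fun s hs => (h1 s (Or.inl hs)).1.differentiableWithinAt)
      ((sector_open hρ).mem_nhds (real_mem hρ hx))
  have hF := exp_of_cont E hρ hρ' (fun γ hγ => (hZ' γ hγ).1) (fun s hs => (g1 s (Or.inl hs)).1)
    (fun s hs => (g1 s (Or.inl hs)).2) (σ := 1 / 2) (fun s _ hs => g2 s hs)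
  have key : ∀ ε : ℝ, 0 < ε → ∃ C : ℝ, ∀ᶠ Y : ℝ in atTop,
      |mean i α ρ ρ' Y - mainTerm i Z m ρ Y| ≤ C * Real.exp (ε * Real.log Y ^ ρ) := by
    intro ε hε
    obtain ⟨C, hC⟩ := hF ε hε
    refine ⟨C, hC.mono fun Y hY => ?_⟩
    rw [mean_eq h, main_eq]
    rw [← mo_eq hS hZr, ← Complex.ofReal_sub, Complex.norm_real, Real.norm_eq_abs] at hY
    exact hY
  refine ⟨⟨⟨H, hHa, fun x hx => h2 x (by rwa [Complex.ofReal_re])⟩, fun ε hε => ?_⟩,
    ⟨fun s => (H s)⁻¹, fun x hx => (hHa x hx).inv (h1 x (Or.inl (real_mem hρ hx))).2,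
      fun x hx => ?_⟩, fun ε hε => ?_⟩
  · obtain ⟨C, hC⟩ := key ε hε
    exact ⟨C, hC.mono fun Y hY => by linarith [(abs_le.1 hY).2]⟩
  · rw [inv_inv]
    exact h2 x (by rwa [Complex.ofReal_re])
  · obtain ⟨C, hC⟩ := key ε hε
    exact ⟨C, hC.mono fun Y hY => by linarith [(abs_le.1 hY).1]⟩

theorem cont_of_up (h : Pure i α) (hρ : 1 < ρ) (hρ' : ρ < ρ') (hZ : IsDivisor i ρ Z m)
    (hc : RealContinues i α Z m) (hu : Upper i α ρ ρ' Z m) : ContinuesWith i α ρ Z m := by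
  have E := PS.sys (i := i) (α := α) h
  obtain ⟨hS, hZ'⟩ := div_shift hZ
  obtain ⟨F, h1, h2⟩ := hc
  obtain ⟨h3, h4⟩ := shift_real h id h1 h2
  obtain ⟨H, h5, h6⟩ := mero_of_upper E hρ hρ' hS hZ' h3 h4 fun ε hε => by
    obtain ⟨C, hC⟩ := hu ε hε
    refine ⟨C, hC.mono fun Y hY => ?_⟩
    rwa [mean_eq h, main_eq] at hY
  exact cont_shift h h5 h6

theorem cont_of_low (h : Pure i α) (hρ : 1 < ρ) (hρ' : ρ < ρ') (hZ : IsDivisor i ρ Z m)
    (hc : RealContinuesInv i α Z m) (hu : Lower i α ρ ρ' Z m) : ContinuesWith i α ρ Z m := by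
  have E := PS.sys (i := i) (α := α) h
  obtain ⟨hS, hZ'⟩ := div_shift hZ
  obtain ⟨F, h1, h2⟩ := hc
  obtain ⟨h3, h4⟩ := shift_real h (fun z => z⁻¹) h1 h2
  obtain ⟨H, h5, h6⟩ := mero_of_lower E hρ hρ' hS hZ' h3 h4 fun ε hε => by
    obtain ⟨C, hC⟩ := hu ε hε
    refine ⟨C, hC.mono fun Y hY => ?_⟩
    rwa [mean_eq h, main_eq] at hY
  exact cont_shift h h5 h6

/-- the half plane from the sectors -/
theorem half_of (h : Pure i α) (hc : ∀ ρ : ℝ, 1 < ρ → ∃ (Z : Finset ℂ) (m : ℂ → ℤ),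
    IsDivisor i ρ Z m ∧ ContinuesWith i α ρ Z m) : ∃ f : ℂ → ℂ, IsContinuation i α f := by
  obtain ⟨g, h1, h2, h3⟩ := glueM (L := LL i α) (fun ρ hρ => by
    obtain ⟨Z, m, hZ, hcon⟩ := hc ρ hρ
    obtain ⟨H, e1, e2⟩ := shift_cont h hcon
    exact ⟨H, sh i Z, fun γ => m (γ + centre i), fun s hs => e1 s (Or.inl hs), fun s _ hs => e2 s hs⟩)
  refine ⟨fun s => g (s - centre i), fun s hs => ?_, fun s hs => ?_, fun ρ hρ => ?_⟩
  · refine meromorphicAt_fun_comp_sub_const_iff_meromorphicAt.2 (h1 _ ?_)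
    have : centre i < s.re := hs
    change 0 < (s - centre i).re
    rw [re_sub]
    linarith
  · rw [isL_iff h hs]
    refine h3 _ ?_
    rw [re_sub]
    unfold centre
    linarith
  · refine ((h2 ρ hρ).image fun s : ℂ => s + (centre i : ℂ)).subset fun s hs =>
      ⟨s - centre i, ⟨?_, ?_⟩, sub_add_cancel _ _⟩
    · exact (sector_shift i ρ s).1 hs.1
    · have h4 := hs.2
      rwa [meromorphicOrderAt_fun_comp_sub_const_eq_meromorphicOrderAt] at h4

/-- the sectors from the half plane -/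
theorem of_half (h : Pure i α) {f : ℂ → ℂ} (hf : IsContinuation i α f) (hρ : 1 < ρ) :
    ∃ (Z : Finset ℂ) (m : ℂ → ℤ), IsDivisor i ρ Z m ∧ ContinuesWith i α ρ Z m := by
  have E := PS.sys (i := i) (α := α) h
  obtain ⟨hf1, hf2, hf3⟩ := hf
  have hm : MeromorphicOn (fun s => f (s + centre i)) (Pool.Agent.TH942.SL.Sect ρ) := by
    intro s hs
    refine meromorphicAt_fun_comp_add_const_iff_meromorphicAt.2 (hf1 _ ?_)
    have := Pool.Agent.TH942.SL.sect_re hρ hs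
    change centre i < (s + centre i).re
    rw [re_add]
    linarith
  have hfin : {s : ℂ | s ∈ Pool.Agent.TH942.SL.Sect ρ ∧
      meromorphicOrderAt (fun s => f (s + centre i)) s ≠ 0}.Finite := by
    refine ((hf3 ρ hρ).image fun s : ℂ => s - (centre i : ℂ)).subset fun s hs =>
      ⟨s + centre i, ⟨?_, ?_⟩, add_sub_cancel_right _ _⟩
    · rw [sector_shift, add_sub_cancel_right]
      exact hs.1
    · rw [← meromorphicOrderAt_fun_comp_add_const_eq_meromorphicOrderAt]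
      exact hs.2
  have he : ∀ s : ℂ, 1 / 2 < s.re → f (s + centre i) = LL i α s := fun s hs => by
    have h4 : (i : ℝ) / 2 + 1 < (s + centre i).re := by
      rw [re_add]
      unfold centre
      linarith
    have h5 := (isL_iff h h4 _).1 (hf2 _ h4)
    rwa [add_sub_cancel_right] at h5
  obtain ⟨H, Z, m, h1, h2, h3⟩ := extractM hρ hm hfin (L := LL i α)
    (fun s _ hs => E.LE_diff hs) (fun s _ hs => he s hs)
  obtain ⟨Z', hZZ, hS, hprod⟩ := exists_symm hρ (L := LL i α)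
    (fun s hs => PS.LE_conj (i := i) (α := α) h hs) h2 (fun β hβ => (h1 β hβ).1) h3
  have hZ' : ∀ β ∈ Z', β ∈ Pool.Agent.TH942.SL.Sect ρ ∧ β.re ≤ 1 / 2 := fun β hβ => h1 β (hZZ hβ)
  have hF := exp_of_cont E hρ (lt_add_one ρ) (fun γ hγ => (hZ' γ hγ).1) (fun s hs => (h2 s hs).1)
    (fun s hs => (h2 s hs).2) (σ := 1 / 2) (m := m) (fun s hs hs2 => by
      rw [← hprod]
      exact h3 s hs hs2)
  obtain ⟨G, g1, g2⟩ := cont_of_exp E hρ (lt_add_one ρ) hZ' hF
  set Z1 : Finset ℂ := Z'.map (addRightEmbedding (centre i : ℂ)) with hZ1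
  have hsh : sh i Z1 = Z' := by
    ext γ
    unfold sh
    rw [hZ1, Finset.map_map]
    simp [Finset.mem_map]
  refine ⟨Z1, fun β => m (β - centre i), ⟨fun β hβ => ?_, fun β hβ => ?_⟩, ?_⟩
  · obtain ⟨γ, hγ, rfl⟩ := Finset.mem_map.1 hβ
    obtain ⟨e1, e2⟩ := hZ' γ hγ
    simp only [addRightEmbedding_apply]
    rw [sector_shift, add_sub_cancel_right, re_add]
    unfold centre
    exact ⟨e1, by linarith⟩
  · obtain ⟨γ, hγ, rfl⟩ := Finset.mem_map.1 hβ
    obtain ⟨e1, e2⟩ := hS γ hγ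
    simp only [addRightEmbedding_apply, map_add, Complex.conj_ofReal, add_sub_cancel_right]
    exact ⟨Finset.mem_map.2 ⟨_, e1, rfl⟩, e2⟩
  · refine cont_shift h (H := G) g1 fun s hs => ?_
    rw [hsh]
    simp only [add_sub_cancel_right]
    exact g2 s hs

end tools

/-- **Theorem.** (A) Let `α` be a pure system of weight `i` with real traces at the primes `v ∈ S` of a number
field.

(1) For all `ρ' > ρ > 1` and every symmetric divisor `∑ m(β) [β]` in the sector `|arg (s - c)| < π/(2ρ)`,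
`Re s ≤ i/2 + 1`, the following are equivalent: `L(s)` has a meromorphic continuation to the union of the sector and
the half plane `Re s > i/2 + 1` with exactly this divisor; `L(s)/∏ (s - β)^{m(β)}` has an analytic continuation
along the real axis to all `s > c` and `S_ρ(Y) ≤ M(Y) + C exp(ε (log Y)^ρ)` for all `ε > 0`; the inverse of
`L(s)/∏ (s - β)^{m(β)}` has an analytic continuation along the real axis to all `s > c` and
`S_ρ(Y) ≥ M(Y) - C exp(ε (log Y)^ρ)` for all `ε > 0`.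

(2) The following are equivalent: `L(s)` has a meromorphic continuation to `Re s > c` with finitely many zeros and
poles in each sector; for every `ρ > 1` the second condition of (1) holds for some `ρ' > ρ` and some divisor;
for every `ρ > 1` the third condition of (1) holds for some `ρ' > ρ` and some divisor; for all `ρ' > ρ > 1` there is
a divisor with all three conditions of (1).

(B) The eigenvalues of Frobenius on `H^i(X)`, `X` a projective variety of dimension `d`, `i ≤ 2d`, are such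
systems. -/
theorem result :
    (∀ (S : Set (HeightOneSpectrum (𝓞 K))) (N i : ℕ) (α : S → Fin N → ℂ), Pure i α →
      (∀ (ρ ρ' : ℝ) (Z : Finset ℂ) (m : ℂ → ℤ), 1 < ρ → ρ < ρ' → IsDivisor i ρ Z m →
        List.TFAE [
          ContinuesWith i α ρ Z m,
          RealContinues i α Z m ∧ Upper i α ρ ρ' Z m,
          RealContinuesInv i α Z m ∧ Lower i α ρ ρ' Z m]) ∧
      List.TFAE [
        ∃ f : ℂ → ℂ, IsContinuation i α f,
        ∀ ρ : ℝ, 1 < ρ → ∃ (ρ' : ℝ) (Z : Finset ℂ) (m : ℂ → ℤ), ρ < ρ' ∧ IsDivisor i ρ Z m ∧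
          RealContinues i α Z m ∧ Upper i α ρ ρ' Z m,
        ∀ ρ : ℝ, 1 < ρ → ∃ (ρ' : ℝ) (Z : Finset ℂ) (m : ℂ → ℤ), ρ < ρ' ∧ IsDivisor i ρ Z m ∧
          RealContinuesInv i α Z m ∧ Lower i α ρ ρ' Z m,
        ∀ ρ ρ' : ℝ, 1 < ρ → ρ < ρ' → ∃ (Z : Finset ℂ) (m : ℂ → ℤ), IsDivisor i ρ Z m ∧
          ContinuesWith i α ρ Z m ∧ (RealContinues i α Z m ∧ Upper i α ρ ρ' Z m) ∧
          RealContinuesInv i α Z m ∧ Lower i α ρ ρ' Z m]) ∧
    ∀ (X : Set (MvPolynomial (Fin n) (𝓞 K))) (d i : ℕ), i ≤ 2 * d →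
      ∀ (S : Set (HeightOneSpectrum (𝓞 K))) (N : ℕ) (α : S → Fin N → ℂ),
        (∀ v, IsFrobenius X d i v.1 (α v)) → Pure i α := by
  refine ⟨fun S N i α h => ⟨fun ρ ρ' Z m hρ hρ' hZ => ?_, ?_⟩,
    fun X d i hi S N α h => PS.pure_of_frobenius hi h⟩
  · tfae_have 1 → 2 := fun hc => (of_cont h hρ hρ' hZ hc).1
    tfae_have 1 → 3 := fun hc => (of_cont h hρ hρ' hZ hc).2
    tfae_have 2 → 1 := fun hc => cont_of_up h hρ hρ' hZ hc.1 hc.2
    tfae_have 3 → 1 := fun hc => cont_of_low h hρ hρ' hZ hc.1 hc.2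
    tfae_finish
  · tfae_have 1 → 4 := by
      rintro ⟨f, hf⟩ ρ ρ' hρ hρ'
      obtain ⟨Z, m, hZ, hc⟩ := of_half h hf hρ
      exact ⟨Z, m, hZ, hc, of_cont h hρ hρ' hZ hc⟩
    tfae_have 4 → 2 := by
      intro hc ρ hρ
      obtain ⟨Z, m, h1, h2, h3, h4⟩ := hc ρ (ρ + 1) hρ (lt_add_one ρ)
      exact ⟨ρ + 1, Z, m, lt_add_one ρ, h1, h3⟩
    tfae_have 4 → 3 := by
      intro hc ρ hρ
      obtain ⟨Z, m, h1, h2, h3, h4⟩ := hc ρ (ρ + 1) hρ (lt_add_one ρ)
      exact ⟨ρ + 1, Z, m, lt_add_one ρ, h1, h4⟩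
    tfae_have 2 → 1 := by
      intro hc
      refine half_of h fun ρ hρ => ?_
      obtain ⟨ρ', Z, m, h1, h2, h3, h4⟩ := hc ρ hρ
      exact ⟨Z, m, h2, cont_of_up h hρ h1 h2 h3 h4⟩
    tfae_have 3 → 1 := by
      intro hc
      refine half_of h fun ρ hρ => ?_
      obtain ⟨ρ', Z, m, h1, h2, h3, h4⟩ := hc ρ hρ
      exact ⟨Z, m, h2, cont_of_low h hρ h1 h2 h3 h4⟩
    tfae_finish

end Pool.Agent.Results.MP_039d94_nt.OneSidedSectors
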