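import Pool.Agent.Y722.HS.Main

/-!
# The L-functions of most hypersurfaces near the edge of absolute convergence

`X_c` is the hypersurface of degree `d` in `ℙⁿ` over `ℚ` with the integer coefficients
`c = (c_m)`, `i = n - 1` its dimension and `V` the primitive part of `H^i(X_c)` (for odd `i`, that
is for even `n`, this is all of `H^i(X_c)`; for even `i` the rest of `H^i` contributes the factor
`ζ(s - i/2)`, that is the pole at the edge). The question says that `L(V, s)` continues
meromorphically without poles apart from a possible pole at `s₀ = i/2 + 1 = (n + 1)/2`, which cannot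
occur for odd `i`; for even `i` and a smooth hypersurface without further algebraic classes
(most hypersurfaces) there is no pole of `L(V, s)` at `s₀` either.

The theorem says this for almost all hypersurfaces, at the scale `1 / log H` of the height, from
the right hand side and also for zeros: there is a constant `C`, depending on `n` and `d` only, such
that for all `H ≥ 2` and `0 < δ ≤ 1` all hypersurfaces with coefficients of absolute value at most
`H`, up to a proportion `δ`, satisfy

`e^{-C/δ} ≤ |L(V, s₀ + ε)| ≤ e^{C/δ}` for ALL `1 / log H ≤ ε ≤ 1`.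

(A zero or a pole of order `m` would make `L(V, s₀ + ε)` behave like `ε^m`.) The L-function enters
through its Euler factors: `IsFrob b c α` says that `α p j`, `j < b`, are complex numbers of
absolute value at most `p^{i/2}` for all primes `p`, which satisfy the Lefschetz formula
`#X_c(𝔽_p) = 1 + p + ⋯ + p^{n-1} + (-1)^{n-1} ∑_j α p j` if `X_c` is smooth modulo `p`; the Euler
product is `LP α s = ∏_p ∏_j (1 - α p j p^{-s})⁻¹`.
-/

set_option autoImplicit false

open Pool.Agent.Y722.HS Finset

namespace Pool.Agent.Results.MP_039d94_nt.RandomHypersurfaces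

/-- The Euler product `LP α` has no zero, and is between `e^{-B}` and `e^B`, at all real points at
a distance between `1 / log H` and `1` to the right of the edge `(n + 1) / 2`. -/
def BoundedNearEdge {b : ℕ} (n : ℕ) (α : ℕ → Fin b → ℂ) (H : ℕ) (B : ℝ) : Prop :=
  ∀ ε : ℝ, 1 / Real.log H ≤ ε → ε ≤ 1 →
    Real.exp (-B) ≤ ‖LP α (ss n ε)‖ ∧ ‖LP α (ss n ε)‖ ≤ Real.exp B

/-- **The L-functions of almost all hypersurfaces near the edge.** For all `n, d ≥ 1` and `b` there
is `C > 0` such that for all `H ≥ 2` and `0 < δ ≤ 1`, for all vectors `c` of integer coefficients of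
absolute value at most `H`, up to a proportion `δ`, the L-function of the primitive middle
cohomology of the hypersurface `X_c ⊂ ℙⁿ` of degree `d` is between `e^{-C/δ}` and `e^{C/δ}` at all
real points at a distance between `1 / log H` and `1` to the right of the edge. -/
theorem result (n d b : ℕ) (hn : 1 ≤ n) (hd : 1 ≤ d) : ∃ C : ℝ, 0 < C ∧ ∀ H : ℕ, 2 ≤ H →
    ∀ δ : ℝ, 0 < δ → δ ≤ 1 → ∃ E ⊆ box (Mon n d) H,
      (E.card : ℝ) ≤ δ * (box (Mon n d) H).card ∧ ∀ c ∈ box (Mon n d) H \ E,
      ∀ α : ℕ → Fin b → ℂ, IsFrob b c α → BoundedNearEdge n α H (C / δ) := by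
  obtain ⟨C, hC, h⟩ := main n d b hn hd
  refine ⟨C, hC, fun H hH δ hδ hδ1 => ?_⟩
  obtain ⟨E, hE, hcard, h1⟩ := h H hH δ hδ hδ1
  refine ⟨E, hE, hcard, fun c hc α hα ε hε hε1 => ?_⟩
  obtain ⟨h0, h2⟩ := h1 c hc α hα ε hε hε1
  have h3 : 0 < ‖LP α (ss n ε)‖ := norm_pos_iff.2 h0
  obtain ⟨h4, h5⟩ := abs_le.1 h2
  constructor
  · calc Real.exp (-(C / δ)) ≤ Real.exp (Real.log ‖LP α (ss n ε)‖) := Real.exp_le_exp.2 h4
      _ = _ := Real.exp_log h3
  · calc ‖LP α (ss n ε)‖ = Real.exp (Real.log ‖LP α (ss n ε)‖) := (Real.exp_log h3).symm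
      _ ≤ _ := Real.exp_le_exp.2 h5

end Pool.Agent.Results.MP_039d94_nt.RandomHypersurfaces
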